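import Pool.Agent.P8H98.DF.Four
import Pool.Agent.N929.EG.PtU

/-!
# Self-avoiding walks on `ℤ⁴`: all functionals of the end point (project DF)
-/

set_option autoImplicit false
set_option linter.unusedVariables false

namespace Pool.Agent.P8H98.DF

open Finset Filter Topology
open scoped Classical
open Pool.Agent.N929.EG

noncomputable section

/-- `√n log n` -/
def sz4 (n : ℕ) : ℝ := Real.sqrt n * Real.log n

theorem sz4_nonneg (n : ℕ) : 0 ≤ sz4 n := by
  unfold sz4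
  exact mul_nonneg (Real.sqrt_nonneg _) (Real.log_natCast_nonneg n)

variable (hcc : S_CC) (hphi : S_PHI) (hupb : S_UPB) (hend : S_END)
variable {Y : TS (List Z4) (List Z4 × List Z4)} (H : Sys4 Y)

include hcc hphi hupb hend H in
/-- **All functionals of the end point, uniformly** -/
theorem end_ptU4 (r : ℕ) (hr : 1 ≤ r) : ∃ C : ℝ, 0 < C ∧
    ∀ f : (Fin 4 → ℤ) → ℝ, (∀ x, 0 ≤ f x ∧ f x ≤ 1) → ∀ n : ℕ, 3 ≤ n → 0 < mean n f →
      C * (sz4 n + Real.log (1 / mean n f)) ≤ n →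
      (∀ i, i ≤ r → 0 < mean (n + 2 * i) f) ∧
      |∑ i ∈ range (r + 1), (-1 : ℝ) ^ i * (r.choose i : ℝ) * Real.log (mean (n + 2 * i) f)| ≤
        C * Real.sqrt ((sz4 n + Real.log (1 / mean n f)) / n) ^ r := by
  obtain ⟨K₁, hK₁, G⟩ := H.gr
  obtain ⟨me, e2, e3, e0, -⟩ := hend
  obtain ⟨C, hC, h⟩ := mean_ptU Y G (low4 hcc hupb H _) r hr
  have hM0 : 0 < K₁ := by linarith
  refine ⟨C * K₁ + C * Real.sqrt K₁ ^ r, by positivity, fun f hf n hn hpos hle => ?_⟩
  have hn0 : (0 : ℝ) < n := by exact_mod_cast (by omega : 0 < n)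
  have hcp : ∀ n, 2 ≤ n → (0 : ℝ) < ((Y.K n).card : ℝ) :=
    fun n hn => card_posT Y G (low4 hcc hupb H _) hn
  have em : ∀ n, mean n f =
      (∑ w ∈ Y.K n, f (E (e4 w))) / ((Y.K n).card : ℝ) := by
    intro n
    rw [me, sum_Y H.K, card_Y H.K]
    simp only [e4_path]
  have hW : 0 < ∑ w ∈ Y.K n, f (E (e4 w)) := by
    rw [em] at hpos
    exact (div_pos_iff_of_pos_right (hcp n (by omega))).1 hpos
  have e1 : (1 : ℝ) / mean n f = ((Y.K n).card : ℝ) / ∑ w ∈ Y.K n, f (E (e4 w)) := by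
    rw [em, one_div, inv_div]
  obtain ⟨l, hl⟩ : ∃ l : ℝ, l = Real.log (1 / mean n f) := ⟨_, rfl⟩
  have hl0 : 0 ≤ l := by
    rw [hl, e1]
    apply Real.log_nonneg
    rw [le_div_iff₀ hW, one_mul]
    calc ∑ w ∈ Y.K n, f (E (e4 w)) ≤ ∑ w ∈ Y.K n, (1 : ℝ) :=
          sum_le_sum (fun w hw => (hf _).2)
      _ = _ := by simp
  rw [← hl] at hle ⊢
  have hs := sz4_nonneg n
  have hx : K₁ * sz4 n + l ≤ K₁ * (sz4 n + l) := by nlinarith
  have hx0 : 0 ≤ K₁ * sz4 n + l := by positivity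
  have h1 := h (fun w => f (E (e4 w))) (fun n w hw => hf _)
    (fun n w hw q hq => by simp only [H.e4 n w hw q hq]) n (by omega) hW
    (by
      change C * (K₁ * sz4 n + Real.log (((Y.K n).card : ℝ) / ∑ w ∈ Y.K n, f (E (e4 w)))) ≤ n
      rw [← e1, ← hl]
      have h2 : 0 ≤ C * Real.sqrt K₁ ^ r * (sz4 n + l) := by positivity
      calc C * (K₁ * sz4 n + l) ≤ C * (K₁ * (sz4 n + l)) :=
            mul_le_mul_of_nonneg_left hx hC.le
        _ ≤ (C * K₁ + C * Real.sqrt K₁ ^ r) * (sz4 n + l) := by nlinarith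
        _ ≤ n := hle)
  rw [H.s] at h1
  rw [← e1, ← hl] at h1
  refine ⟨fun i hi => ?_, ?_⟩
  · rw [em]
    exact div_pos (h1.1 i hi) (hcp _ (by omega))
  · simp only [em]
    refine h1.2.trans ?_
    have h3 : Real.sqrt ((K₁ * (Real.sqrt n * Real.log n) + l) / n) ≤
        Real.sqrt K₁ * Real.sqrt ((sz4 n + l) / n) := by
      rw [← Real.sqrt_mul hM0.le]
      apply Real.sqrt_le_sqrt
      rw [← mul_div_assoc]
      exact div_le_div_of_nonneg_right hx hn0.le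
    have h4 := pow_le_pow_left₀ (Real.sqrt_nonneg _) h3 r
    rw [mul_pow] at h4
    have h5 : 0 ≤ Real.sqrt ((sz4 n + l) / n) ^ r := by positivity
    calc C * Real.sqrt ((K₁ * (Real.sqrt n * Real.log n) + l) / n) ^ r
        ≤ C * (Real.sqrt K₁ ^ r * Real.sqrt ((sz4 n + l) / n) ^ r) :=
          mul_le_mul_of_nonneg_left h4 hC.le
      _ ≤ _ := by
          have h6 : 0 ≤ C * K₁ * Real.sqrt ((sz4 n + l) / n) ^ r := by positivity
          nlinarith

end

end Pool.Agent.P8H98.DF
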