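import Pool.Agent.P8H98.DF.Fin
import Pool.Agent.P8H98.DF.End4U
import Pool.Agent.P8H63.DF.All
import Pool.Agent.P8H63.DF.End
import Pool.Agent.P8H63.DF.Phi
import Pool.Agent.P8H63.DF.Upb
import Pool.Agent.P8H66.DF.Cnt
import Pool.Agent.P8H66.DF.Wk
import Pool.Agent.P8H86.DF.Geo
import Pool.Agent.P8H86.DF.Walks
import Pool.Agent.P8H4.DF.Cc
import Pool.Agent.P8H4.DF.Mu
import Pool.Agent.P8H21.DF.POOR

/-!
# Self-avoiding walks on `ℤ⁴`: assembly (project DF)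

Packages: PAT, SAT, END, PHI, UPB (helper63), GEO, WALKS (helper86), CC, MU (helper4),
WK, CNT (helper66), POOR (helper21), FIN and the assembly (helper98).
-/

set_option autoImplicit false

namespace Pool.Agent.P8H98.DF

open Finset Pool.Agent.N929.EG

theorem poor4 : Poor4 :=
  Pool.Agent.P8H21.DF.poor (Pool.Agent.P8H86.DF.walks fin_proof) Pool.Agent.P8H63.DF.sat

theorem sysT : ∃ Y : TS (List Z4) (List Z4 × List Z4), Sys4 Y :=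
  sys4 Pool.Agent.P8H86.DF.geo Pool.Agent.P8H66.DF.wk Pool.Agent.P8H66.DF.cnt
    Pool.Agent.P8H63.DF.patT Pool.Agent.P8H4.DF.cc_thm Pool.Agent.P8H4.DF.mu_thm
    Pool.Agent.P8H63.DF.phi_phi Pool.Agent.P8H63.DF.upb poor4

theorem momentT (p : ℝ) : (∀ n : ℕ, 2 ≤ n → 0 < mean n (fun x => norm2 x ^ p)) ∧
    ∀ r : ℕ, 1 ≤ r → ∃ C : ℝ, 0 < C ∧ ∀ n : ℕ, 3 ≤ n →
    |∑ i ∈ range (r + 1), (-1 : ℝ) ^ i * (r.choose i : ℝ) *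
      Real.log (mean (n + 2 * i) (fun x => norm2 x ^ p))| ≤ C * rt n ^ r := by
  obtain ⟨Y, H⟩ := sysT
  exact moment4 Pool.Agent.P8H4.DF.cc_thm Pool.Agent.P8H63.DF.phi_phi Pool.Agent.P8H63.DF.upb
    Pool.Agent.P8H63.DF.end_thm H p

theorem endT (r : ℕ) (hr : 1 ≤ r) : ∃ C : ℝ, 0 < C ∧ ∀ n : ℕ, 3 ≤ n →
    ∀ S : Set (Fin 4 → ℤ), |∑ i ∈ range (r + 1), (-1 : ℝ) ^ i * (r.choose i : ℝ) *
      mean (n + 2 * i) (S.indicator 1)| ≤ C * rt n ^ r := by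
  obtain ⟨Y, H⟩ := sysT
  exact end4 Pool.Agent.P8H4.DF.cc_thm Pool.Agent.P8H63.DF.phi_phi Pool.Agent.P8H63.DF.upb
    Pool.Agent.P8H63.DF.end_thm H r hr

theorem countT (r : ℕ) (hr : 1 ≤ r) : ∃ C : ℝ, 0 < C ∧ ∀ n : ℕ, 3 ≤ n →
    |∑ i ∈ range (r + 1), (-1 : ℝ) ^ i * (r.choose i : ℝ) *
      Real.log (((SS (n + 2 * i)).card : ℝ) / μ4 ^ (n + 2 * i))| ≤ C * rt n ^ r := by
  obtain ⟨Y, H⟩ := sysT
  exact count4 Pool.Agent.P8H4.DF.cc_thm Pool.Agent.P8H63.DF.phi_phi Pool.Agent.P8H63.DF.upb H r hr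

theorem ptT (r : ℕ) (hr : 1 ≤ r) : ∃ C : ℝ, 0 < C ∧
    ∀ f : (Fin 4 → ℤ) → ℝ, (∀ x, 0 ≤ f x ∧ f x ≤ 1) → ∀ n : ℕ, 3 ≤ n → 0 < mean n f →
      C * (sz4 n + Real.log (1 / mean n f)) ≤ n →
      (∀ i, i ≤ r → 0 < mean (n + 2 * i) f) ∧
      |∑ i ∈ range (r + 1), (-1 : ℝ) ^ i * (r.choose i : ℝ) * Real.log (mean (n + 2 * i) f)| ≤
        C * Real.sqrt ((sz4 n + Real.log (1 / mean n f)) / n) ^ r := by
  obtain ⟨Y, H⟩ := sysT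
  exact end_ptU4 Pool.Agent.P8H4.DF.cc_thm Pool.Agent.P8H63.DF.phi_phi Pool.Agent.P8H63.DF.upb
    Pool.Agent.P8H63.DF.end_thm H r hr

end Pool.Agent.P8H98.DF
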