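import Pool.Agent.P8H98.DF.Defs

/-!
# Basic lemmas on words and paths (adapted from H246KN.Basic)
-/

set_option autoImplicit false

namespace Pool.Agent.P8H98.DF

open Finset Filter Topology
open scoped Classical

@[simp] theorem neg_neg_dir (d : Dir) : neg (neg d) = d := by cases d <;> rfl

theorem vec_neg (d : Dir) : vec (neg d) = - vec d := by cases d <;> decide

theorem vec_inj {d e : Dir} (h : vec d = vec e) : d = e := by
  cases d <;> cases e <;> first | rfl | (exact absurd h (by decide))

theorem pos_append (l1 l2 : List Dir) : pos (l1 ++ l2) = pos l1 + pos l2 := by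
  induction l1 with
  | nil => simp [pos]
  | cons d l ih => simp only [List.cons_append, pos, ih]; abel

theorem path_ne_nil (w : List Dir) : path w ≠ [] := by cases w <;> simp [path]

theorem path_length (w : List Dir) : (path w).length = w.length + 1 := by
  induction w with
  | nil => rfl
  | cons d l ih => simp [path, ih]


theorem head_path (w : List Dir) : (path w).head (path_ne_nil w) = pos w := by
  cases w <;> rfl

theorem pos_mem_path (w : List Dir) : pos w ∈ path w := by
  cases w <;> simp [path, pos]

theorem zero_mem_path (w : List Dir) : (0 : Z4) ∈ path w := by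
  induction w with
  | nil => simp [path]
  | cons d l ih => simp [path, ih]

/-- the path of a concatenation (`l2` is walked first) -/
theorem path_append (l1 l2 : List Dir) :
    path (l1 ++ l2) = ((path l1).dropLast.map (fun p => p + pos l2)) ++ path l2 := by
  induction l1 with
  | nil => simp [path]
  | cons d l ih =>
    have h : (path (d :: l)).dropLast = (pos l + vec d) :: (path l).dropLast := by
      simp [path, List.dropLast_cons_of_ne_nil (path_ne_nil l)]
    rw [List.cons_append, path, ih, h, pos_append]
    simp [add_right_comm]

theorem path_getLast (w : List Dir) : (path w).getLast (path_ne_nil w) = 0 := by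
  induction w with
  | nil => rfl
  | cons d l ih => simp only [path]; rw [List.getLast_cons (path_ne_nil l)]; exact ih

/-- the `i`-th entry of the path -/
theorem path_getElem (w : List Dir) (i : ℕ) (h : i < (path w).length) :
    (path w)[i] = pos (w.drop i) := by
  induction w generalizing i with
  | nil =>
    have : i = 0 := by simpa [path] using h
    subst this; rfl
  | cons d l ih =>
    cases i with
    | zero => rfl
    | succ i =>
      simp only [path, List.getElem_cons_succ, List.drop_succ_cons]
      exact ih i (by simpa [path] using h)

theorem mem_path_iff (w : List Dir) (p : Z4) :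
    p ∈ path w ↔ ∃ i ≤ w.length, p = pos (w.drop i) := by
  constructor
  · intro h
    obtain ⟨i, hi, rfl⟩ := List.getElem_of_mem h
    exact ⟨i, by rw [path_length] at hi; omega, path_getElem w i hi⟩
  · rintro ⟨i, hi, rfl⟩
    have hi' : i < (path w).length := by rw [path_length]; omega
    rw [← path_getElem w i hi']
    exact List.getElem_mem _

theorem drop_eq_getD_cons (w : List Dir) (i : ℕ) (h : i < w.length) :
    w.drop i = w.getD i .xp :: w.drop (i + 1) := by
  rw [List.drop_eq_getElem_cons h, List.getD_eq_getElem _ _ h]

theorem pos_drop (w : List Dir) (i : ℕ) (h : i < w.length) :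
    pos (w.drop i) = pos (w.drop (i + 1)) + vec (w.getD i .xp) := by
  rw [drop_eq_getD_cons w i h, pos]

theorem mem_W {n : ℕ} {w : List Dir} : w ∈ W n ↔ w.length = n := by
  unfold W
  simp only [mem_image, mem_univ, true_and]
  constructor
  · rintro ⟨f, rfl⟩; simp
  · rintro rfl; exact ⟨fun i => w[i], by simp⟩

theorem mem_SS {n : ℕ} {w : List Dir} : w ∈ SS n ↔ w.length = n ∧ SAW w := by
  unfold SS; rw [mem_filter, mem_W]

theorem mem_sites {w : List Dir} {i : ℕ} {d : Dir} : (i, d) ∈ sites w ↔ site w i d := by
  unfold sites
  simp only [mem_filter, mem_product, mem_range, mem_univ, and_true]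
  exact ⟨fun h => h.2, fun h => ⟨h.1, h⟩⟩

theorem mem_bumps {w : List Dir} {j : ℕ} : j ∈ bumps w ↔ bump w j := by
  unfold bumps
  simp only [mem_filter, mem_range]
  exact ⟨fun h => h.2, fun h => ⟨by have := h.1; omega, h⟩⟩


end Pool.Agent.P8H98.DF
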