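import Pool.Agent.P8H98.DF.Most4

/-!
# Self-avoiding walks on `ℤ⁴`: bounds for the doubling ratios along sparse lengths
-/

set_option autoImplicit false

namespace Pool.Agent.P8H98.DF.Dbl4

open Filter Topology

/-- from doubling inequalities for all even lengths to a bound -/
theorem pot {f e Φ : ℕ → ℝ} {N : ℕ} (hN : 2 ≤ N)
    (h1 : ∀ n, N ≤ n → Even n → f (2 * n) ≤ f n + e n)
    (h2 : ∀ n, N ≤ n → Even n → f (n + 2) ≤ f n + e n)
    (h3 : ∀ n, 4 * N ≤ n → Even n → Φ (2 * (n / 4)) + e (2 * (n / 4)) + e (4 * (n / 4)) ≤ Φ n ∧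
      Φ (2 * (n / 4)) + e (2 * (n / 4)) ≤ Φ n) :
    ∃ A : ℝ, ∀ n, N ≤ n → Even n → f n ≤ A + Φ n := by
  set A : ℝ := ∑ i ∈ Finset.range (4 * N), |f i - Φ i| with hA
  refine ⟨A, fun n => ?_⟩
  induction n using Nat.strong_induction_on with
  | _ n ih =>
    intro hn he
    rcases lt_or_ge n (4 * N) with hlt | hge
    · have h4 : |f n - Φ n| ≤ A :=
        Finset.single_le_sum (f := fun i => |f i - Φ i|) (fun i _ => abs_nonneg _)
          (Finset.mem_range.2 hlt)
      have := (abs_le.1 h4).2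
      linarith
    · have he2 : Even (2 * (n / 4)) := even_two_mul _
      have i1 := ih (2 * (n / 4)) (by omega) (by omega) he2
      have i2 := h1 (2 * (n / 4)) (by omega) he2
      rw [show 2 * (2 * (n / 4)) = 4 * (n / 4) by ring] at i2
      obtain ⟨i3, i4⟩ := h3 n hge he
      obtain ⟨k, hk⟩ := he
      rcases (by omega : n = 4 * (n / 4) ∨ n = 4 * (n / 4) + 2) with h5 | h5
      · have : f n = f (4 * (n / 4)) := by rw [← h5]
        linarith
      · have i5 := h2 (4 * (n / 4)) (by omega) ⟨2 * (n / 4), by ring⟩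
        rw [← h5] at i5
        linarith

/-- the rate -/
noncomputable def r (n : ℕ) : ℝ := (n : ℝ) ^ (-(1 / 4) : ℝ) * Real.sqrt (Real.log n)

theorem r_nonneg (n : ℕ) : 0 ≤ r n := by
  unfold r
  positivity

/-- the rate at `k ∈ [n, 4 n]` -/
theorem r_le {n k : ℕ} (hn : 4 ≤ n) (h1 : n ≤ k) (h2 : k ≤ 4 * n) : r k ≤ 2 * r n := by
  have hn0 : (0 : ℝ) < n := by exact_mod_cast (show 0 < n by omega)
  have hk0 : (0 : ℝ) < k := by exact_mod_cast (show 0 < k by omega)
  have h1' : (n : ℝ) ≤ k := by exact_mod_cast h1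
  have h2' : (k : ℝ) ≤ 4 * n := by exact_mod_cast h2
  have hn4 : (4 : ℝ) ≤ n := by exact_mod_cast hn
  have a1 : (k : ℝ) ^ (-(1 / 4) : ℝ) ≤ (n : ℝ) ^ (-(1 / 4) : ℝ) :=
    Real.rpow_le_rpow_of_nonpos hn0 h1' (by norm_num)
  have a2 : Real.log k ≤ 4 * Real.log n := by
    have b1 : Real.log k ≤ Real.log ((n : ℝ) ^ (4 : ℕ)) := by
      refine Real.log_le_log hk0 ?_
      have : (4 * n : ℝ) ≤ (n : ℝ) ^ 4 := by
        have : (4 : ℝ) ≤ (n : ℝ) ^ 3 := by nlinarith [mul_self_nonneg ((n : ℝ) - 2)]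
        nlinarith
      linarith
    rw [Real.log_pow] at b1
    push_cast at b1
    exact b1
  have a3 : Real.sqrt (Real.log k) ≤ 2 * Real.sqrt (Real.log n) := by
    have : (2 : ℝ) * Real.sqrt (Real.log n) = Real.sqrt (4 * Real.log n) := by
      rw [Real.sqrt_mul (by norm_num : (0 : ℝ) ≤ 4), show (4 : ℝ) = 2 ^ 2 by norm_num,
        Real.sqrt_sq (by norm_num)]
    rw [this]
    exact Real.sqrt_le_sqrt a2
  unfold r
  calc (k : ℝ) ^ (-(1 / 4) : ℝ) * Real.sqrt (Real.log k) ≤
      (n : ℝ) ^ (-(1 / 4) : ℝ) * (2 * Real.sqrt (Real.log n)) :=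
        mul_le_mul a1 a3 (Real.sqrt_nonneg _) (by positivity)
    _ = _ := by ring

variable {L : ℕ → ℝ} {C B : ℝ}

/-- what is needed about the moments -/
structure Sm (L : ℕ → ℝ) (C B : ℝ) : Prop where
  C0 : 0 ≤ C
  two : ∀ n : ℕ, 4 ≤ n → |L (n + 2) - L n| ≤ C * r n
  one : ∀ n : ℕ, 4 ≤ n → |L (n + 1) - L n| ≤ B

theorem Sm.neg (h : Sm L C B) : Sm (fun n => -L n) C B :=
  ⟨h.C0, fun n hn => by
    have := h.two n hn
    rwa [show -L (n + 2) - -L n = -(L (n + 2) - L n) by ring, abs_neg], fun n hn => by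
    have := h.one n hn
    rwa [show -L (n + 1) - -L n = -(L (n + 1) - L n) by ring, abs_neg]⟩

/-- a chain of steps of length two -/
theorem Sm.chain (h : Sm L C B) {n : ℕ} (hn : 4 ≤ n) {k : ℕ} (h1 : n ≤ k) :
    ∀ j : ℕ, k + 2 * j ≤ 4 * n → |L (k + 2 * j) - L k| ≤ j * (2 * C * r n) := by
  intro j
  induction j with
  | zero => intro _; simp
  | succ j ih =>
    intro hj
    have i1 := ih (by omega)
    have i2 := h.two (k + 2 * j) (by omega)
    have i3 := mul_le_mul_of_nonneg_left (r_le hn (show n ≤ k + 2 * j by omega) (by omega)) h.C0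
    rw [show k + 2 * j + 2 = k + 2 * (j + 1) by ring] at i2
    have i4 := abs_sub_le (L (k + 2 * (j + 1))) (L (k + 2 * j)) (L k)
    push_cast
    linarith

/-- the doubling ratios at nearby even lengths -/
theorem Sm.near (h : Sm L C B) {n m : ℕ} (hn : 4 ≤ n) (hen : Even n) (hem : Even m)
    (h1 : n ≤ m) (h2 : m ≤ 2 * n) :
    L (2 * n) - L n ≤ L (2 * m) - L m + 4 * C * ((m : ℝ) - n) * r n := by
  obtain ⟨a, ha⟩ := hen
  obtain ⟨b, hb⟩ := hem
  have i1 := h.chain hn (k := 2 * n) (by omega) (m - n) (by omega)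
  have i2 := h.chain hn (k := n) le_rfl (b - a) (by omega)
  rw [show 2 * n + 2 * (m - n) = 2 * m by omega, Nat.cast_sub h1] at i1
  rw [show n + 2 * (b - a) = m by omega, Nat.cast_sub (by omega)] at i2
  have hbr : (m : ℝ) = b + b := by rw [hb]; push_cast; ring
  have har : (n : ℝ) = a + a := by rw [ha]; push_cast; ring
  have e : (b : ℝ) - a = ((m : ℝ) - n) / 2 := by rw [hbr, har]; ring
  rw [e] at i2
  have i3 := (abs_le.1 i1).1
  have i4 := (abs_le.1 i2).2
  have hmn : (n : ℝ) ≤ m := by exact_mod_cast h1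
  have i5 : 0 ≤ C * ((m : ℝ) - n) * r n :=
    mul_nonneg (mul_nonneg h.C0 (by linarith)) (r_nonneg n)
  linarith

theorem log_tend : Tendsto (fun n : ℕ => Real.log (n : ℝ)) atTop atTop :=
  Real.tendsto_log_atTop.comp tendsto_natCast_atTop_atTop

theorem loglog_tend : Tendsto (fun n : ℕ => Real.log (Real.log (n : ℝ))) atTop atTop :=
  Real.tendsto_log_atTop.comp log_tend

theorem r_log : Tendsto (fun n : ℕ => r n * Real.log n) atTop (𝓝 0) := by
  have h1 : Tendsto (fun n : ℕ => Real.log (n : ℝ) / (n : ℝ) ^ (1 / 8 : ℝ)) atTop (𝓝 0) :=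
    ((isLittleO_log_rpow_atTop (show (0 : ℝ) < 1 / 8 by norm_num)).tendsto_div_nhds_zero).comp
      tendsto_natCast_atTop_atTop
  have h2 := h1.mul h1
  rw [mul_zero] at h2
  refine squeeze_zero' (Eventually.of_forall fun n => ?_) ?_ h2
  · exact mul_nonneg (r_nonneg n) (Real.log_natCast_nonneg n)
  · filter_upwards [log_tend.eventually_ge_atTop 1, eventually_ge_atTop 1] with n hn hn1
    have hn0 : (0 : ℝ) < n := by exact_mod_cast hn1
    have h3 : Real.sqrt (Real.log n) ≤ Real.log n := by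
      rw [Real.sqrt_le_left (by linarith)]
      nlinarith
    have h4 : (n : ℝ) ^ (-(1 / 4) : ℝ) = 1 / (n : ℝ) ^ (1 / 8 : ℝ) * (1 / (n : ℝ) ^ (1 / 8 : ℝ)) := by
      have h7 : (n : ℝ) ^ (1 / 4 : ℝ) = (n : ℝ) ^ (1 / 8 : ℝ) * (n : ℝ) ^ (1 / 8 : ℝ) := by
        rw [← Real.rpow_add hn0]
        norm_num
      rw [Real.rpow_neg hn0.le, h7, mul_inv]
      simp only [one_div]
    unfold r
    rw [h4]
    have h5 : 0 ≤ 1 / (n : ℝ) ^ (1 / 8 : ℝ) := by positivity
    calc 1 / (n : ℝ) ^ (1 / 8 : ℝ) * (1 / (n : ℝ) ^ (1 / 8 : ℝ)) * Real.sqrt (Real.log n) *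
        Real.log n ≤ 1 / (n : ℝ) ^ (1 / 8 : ℝ) * (1 / (n : ℝ) ^ (1 / 8 : ℝ)) * Real.log n *
        Real.log n := by
          refine mul_le_mul_of_nonneg_right (mul_le_mul_of_nonneg_left h3 (by positivity))
            (by linarith)
      _ = _ := by ring

/-- `r n` times a gap -/
theorem r_gap1 {n : ℕ} (hn : 3 ≤ n) :
    (n : ℝ) ^ (1 / 4 : ℝ) / Real.sqrt (Real.log n) * r n = 1 := by
  have hn0 : (0 : ℝ) < n := by exact_mod_cast (show 0 < n by omega)
  have hl : 0 < Real.log (n : ℝ) := Real.log_pos (by exact_mod_cast (show 1 < n by omega))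
  have hs : Real.sqrt (Real.log n) ≠ 0 := (Real.sqrt_pos.2 hl).ne'
  unfold r
  rw [Real.rpow_neg hn0.le]
  have : (n : ℝ) ^ (1 / 4 : ℝ) ≠ 0 := by positivity
  field_simp

theorem r_gap2 {n : ℕ} (hn : 3 ≤ n) :
    (n : ℝ) ^ (1 / 4 : ℝ) / Real.log n ^ (3 / 2 : ℝ) * r n = 1 / Real.log n := by
  have hn0 : (0 : ℝ) < n := by exact_mod_cast (show 0 < n by omega)
  have hl : 0 < Real.log (n : ℝ) := Real.log_pos (by exact_mod_cast (show 1 < n by omega))
  have hs : Real.sqrt (Real.log n) ≠ 0 := (Real.sqrt_pos.2 hl).ne'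
  have e : Real.log (n : ℝ) ^ (3 / 2 : ℝ) = Real.log n * Real.sqrt (Real.log n) := by
    rw [Real.sqrt_eq_rpow, ← Real.rpow_one_add' hl.le (by norm_num)]
    norm_num
  unfold r
  rw [Real.rpow_neg hn0.le, e]
  have : (n : ℝ) ^ (1 / 4 : ℝ) ≠ 0 := by positivity
  field_simp

/-- the halving step in the scale -/
theorem half_log {n : ℕ} (hn : 8 ≤ n) : 0 < 2 * (n / 4) ∧
    Real.log 2 ≤ Real.log n - Real.log ((2 * (n / 4) : ℕ) : ℝ) ∧
    Real.log n ≤ 4 * Real.log ((2 * (n / 4) : ℕ) : ℝ) := by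
  have h0 : 0 < 2 * (n / 4) := by omega
  have hn0 : (0 : ℝ) < n := by exact_mod_cast (show 0 < n by omega)
  have hk0 : (0 : ℝ) < ((2 * (n / 4) : ℕ) : ℝ) := by exact_mod_cast h0
  refine ⟨h0, ?_, ?_⟩
  · rw [← Real.log_div hn0.ne' hk0.ne']
    refine Real.log_le_log (by norm_num) ?_
    rw [le_div_iff₀ hk0]
    have : 2 * (2 * (n / 4)) ≤ n := by omega
    exact_mod_cast this
  · have h1 : Real.log n ≤ Real.log (((2 * (n / 4) : ℕ) : ℝ) ^ (4 : ℕ)) := by
      refine Real.log_le_log hn0 ?_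
      have h2 : (n : ℝ) ≤ 4 * ((2 * (n / 4) : ℕ) : ℝ) := by
        exact_mod_cast (show n ≤ 4 * (2 * (n / 4)) by omega)
      have h3 : (4 : ℝ) ≤ ((2 * (n / 4) : ℕ) : ℝ) := by
        exact_mod_cast (show 4 ≤ 2 * (n / 4) by omega)
      set x := ((2 * (n / 4) : ℕ) : ℝ) with hx
      have h4 : (4 : ℝ) ≤ x ^ 3 := by
        have : x ≤ x ^ 3 := le_self_pow₀ (by linarith) (by norm_num)
        linarith
      calc (n : ℝ) ≤ 4 * x := h2
        _ ≤ x ^ 3 * x := mul_le_mul_of_nonneg_right h4 (by linarith)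
        _ = x ^ 4 := by ring
    rw [Real.log_pow] at h1
    push_cast at h1 ⊢
    exact h1

/-- **power scale, upper bound** -/
theorem up1 (h : Sm L C B) {S : Set ℕ} (heS : ∀ m ∈ S, Even m)
    (hS : ∀ δ : ℝ, 0 < δ → ∀ᶠ n : ℕ in atTop, ∃ m ∈ S, n ≤ m ∧
      (m : ℝ) ≤ n + δ * ((n : ℝ) ^ (1 / 4 : ℝ) / Real.sqrt (Real.log n)))
    {θ : ℝ} (hd : ∀ ε : ℝ, 0 < ε → ∀ᶠ m : ℕ in atTop, m ∈ S →
      L (2 * m) - L m ≤ (θ + ε) * Real.log 2) (ε : ℝ) (hε : 0 < ε) :
    ∀ᶠ n : ℕ in atTop, L n ≤ (θ + ε) * Real.log n := by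
  set τ := ε / 12 with hτ
  have hτ0 : 0 < τ := by positivity
  have hl2 : (0.69 : ℝ) ≤ Real.log 2 := by have := Real.log_two_gt_d9; linarith
  have hl2' : Real.log 2 ≤ 1 := by have := Real.log_two_lt_d9; linarith
  set δ := τ / (4 * C + 1) with hδ
  have hC := h.C0
  have hδ0 : 0 < δ := by positivity
  have hCδ : 4 * C * δ ≤ τ := by
    rw [hδ, mul_div_assoc', div_le_iff₀ (by positivity)]
    nlinarith
  -- gaps are small
  have hsm : ∀ᶠ n : ℕ in atTop, C * r n + |θ| * (2 / n) ≤ 2 * τ := by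
    have h1 : Tendsto (fun n : ℕ => C * r n + |θ| * (2 / n)) atTop (𝓝 (C * 0 + |θ| * 0)) := by
      refine Tendsto.add ?_ ?_
      · refine Tendsto.const_mul C ?_
        refine squeeze_zero' (Eventually.of_forall fun n => r_nonneg n) ?_ r_log
        filter_upwards [log_tend.eventually_ge_atTop 1] with n hn
        exact le_mul_of_one_le_right (r_nonneg n) hn
      · exact (tendsto_const_div_atTop_nhds_zero_nat 2).const_mul _
    rw [mul_zero, mul_zero, add_zero] at h1
    exact (h1.eventually_lt_const (by positivity : 0 < 2 * τ)).mono fun _ h => h.le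
  obtain ⟨N1, hN1⟩ := eventually_atTop.1 (hS δ hδ0)
  obtain ⟨N2, hN2⟩ := eventually_atTop.1 (hd τ hτ0)
  obtain ⟨N3, hN3⟩ := eventually_atTop.1 hsm
  have hgap : ∀ᶠ n : ℕ in atTop, δ * ((n : ℝ) ^ (1 / 4 : ℝ) / Real.sqrt (Real.log n)) ≤ n := by
    have h1 : Tendsto (fun n : ℕ => (n : ℝ) ^ (3 / 4 : ℝ)) atTop atTop :=
      (tendsto_rpow_atTop (by norm_num)).comp tendsto_natCast_atTop_atTop
    filter_upwards [log_tend.eventually_ge_atTop 1, eventually_ge_atTop 1,
      h1.eventually_ge_atTop δ] with n hn hn1 h2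
    have hn0 : (0 : ℝ) < n := by exact_mod_cast hn1
    have h3 : 1 ≤ Real.sqrt (Real.log n) := Real.one_le_sqrt.2 hn
    have h4 : (n : ℝ) ^ (1 / 4 : ℝ) / Real.sqrt (Real.log n) ≤ (n : ℝ) ^ (1 / 4 : ℝ) :=
      div_le_self (by positivity) h3
    calc δ * ((n : ℝ) ^ (1 / 4 : ℝ) / Real.sqrt (Real.log n)) ≤
        (n : ℝ) ^ (3 / 4 : ℝ) * (n : ℝ) ^ (1 / 4 : ℝ) := mul_le_mul h2 h4 (by positivity)
          (by positivity)
      _ = n := by
        rw [← Real.rpow_add hn0]
        norm_num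
  obtain ⟨N4, hN4⟩ := eventually_atTop.1 hgap
  obtain ⟨A, hA⟩ := pot (f := fun n => L n - θ * Real.log n) (e := fun _ => 2 * τ)
    (Φ := fun n => 6 * τ * Real.log n) (N := N1 + N2 + N3 + N4 + 8) (by omega)
    (fun n hn he => by
      obtain ⟨m, hm, hnm, hmG⟩ := hN1 n (by omega)
      have hg := hN4 n (by omega)
      have hm2 : m ≤ 2 * n := by
        have : (m : ℝ) ≤ 2 * n := by linarith
        exact_mod_cast this
      have i1 := h.near (by omega) he (heS m hm) hnm hm2
      have i2 := hN2 m (by omega) hm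
      have i3 := r_gap1 (show 3 ≤ n by omega)
      have hn0 : (0 : ℝ) < n := by exact_mod_cast (show 0 < n by omega)
      have i4 : 4 * C * ((m : ℝ) - n) * r n ≤ τ := by
        have q1 : (m : ℝ) - n ≤ δ * ((n : ℝ) ^ (1 / 4 : ℝ) / Real.sqrt (Real.log n)) := by linarith
        have q2 := mul_le_mul_of_nonneg_left q1 (show 0 ≤ 4 * C by positivity)
        have q3 := mul_le_mul_of_nonneg_right q2 (r_nonneg n)
        refine q3.trans ?_
        rw [show 4 * C * (δ * ((n : ℝ) ^ (1 / 4 : ℝ) / Real.sqrt (Real.log n))) * r n =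
          4 * C * δ * ((n : ℝ) ^ (1 / 4 : ℝ) / Real.sqrt (Real.log n) * r n) by ring, i3]
        linarith
      have i5 : Real.log ((2 * n : ℕ) : ℝ) = Real.log 2 + Real.log n := by
        push_cast
        rw [Real.log_mul (by norm_num) hn0.ne']
      have i6 : τ * Real.log 2 ≤ τ := mul_le_of_le_one_right hτ0.le hl2'
      rw [i5]
      linarith)
    (fun n hn he => by
      have i1 := (abs_le.1 (h.two n (by omega))).2
      have i2 := hN3 n (by omega)
      have hn0 : (0 : ℝ) < n := by exact_mod_cast (show 0 < n by omega)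
      have i3 : |Real.log ((n + 2 : ℕ) : ℝ) - Real.log n| ≤ 2 / n := by
        have q0 : Real.log (n : ℝ) ≤ Real.log ((n + 2 : ℕ) : ℝ) :=
          Real.log_le_log hn0 (by push_cast; linarith)
        rw [abs_of_nonneg (by linarith), ← Real.log_div (by positivity) hn0.ne']
        have q1 := Real.log_le_sub_one_of_pos (show 0 < ((n + 2 : ℕ) : ℝ) / n by positivity)
        have q2 : ((n + 2 : ℕ) : ℝ) / n - 1 = 2 / n := by
          push_cast
          field_simp
          ring
        linarith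
      have i4 : -(θ * Real.log ((n + 2 : ℕ) : ℝ) - θ * Real.log n) ≤ |θ| * (2 / n) := by
        have q1 := neg_abs_le (θ * (Real.log ((n + 2 : ℕ) : ℝ) - Real.log n))
        rw [abs_mul] at q1
        have q2 := mul_le_mul_of_nonneg_left i3 (abs_nonneg θ)
        linarith
      linarith)
    (fun n hn he => by
      obtain ⟨-, i1, -⟩ := half_log (show 8 ≤ n by omega)
      have i2 := mul_le_mul_of_nonneg_left i1 (show 0 ≤ 6 * τ by positivity)
      have i3 : 4 * τ ≤ 6 * τ * Real.log 2 := by nlinarith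
      constructor <;> linarith)
  filter_upwards [eventually_ge_atTop (N1 + N2 + N3 + N4 + 10),
    (log_tend.const_mul_atTop (show 0 < 6 * τ by positivity)).eventually_ge_atTop
      (A + |B| + |θ| * 1)] with n hn hbig
  have hn0 : (0 : ℝ) < n := by exact_mod_cast (show 0 < n by omega)
  have hε12 : ε = 12 * τ := by rw [hτ]; ring
  rcases Nat.even_or_odd n with he | ho
  · have i1 := hA n (by omega) he
    have := abs_nonneg B
    have := abs_nonneg θ
    rw [hε12]
    linarith
  · obtain ⟨k, hk⟩ := ho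
    have i1 := hA (2 * k) (by omega) (even_two_mul k)
    have i2 := (abs_le.1 (h.one (2 * k) (by omega))).2
    rw [← hk] at i2
    have hk0 : (0 : ℝ) < ((2 * k : ℕ) : ℝ) := by exact_mod_cast (show 0 < 2 * k by omega)
    have q0 : Real.log ((2 * k : ℕ) : ℝ) ≤ Real.log n := Real.log_le_log hk0 (by
      exact_mod_cast (show 2 * k ≤ n by omega))
    have q1 : Real.log n - Real.log ((2 * k : ℕ) : ℝ) ≤ 1 := by
      rw [← Real.log_div hn0.ne' hk0.ne']
      have q2 := Real.log_le_sub_one_of_pos (show 0 < (n : ℝ) / ((2 * k : ℕ) : ℝ) by positivity)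
      have q3 : (n : ℝ) / ((2 * k : ℕ) : ℝ) ≤ 2 := by
        rw [div_le_iff₀ hk0]
        exact_mod_cast (show n ≤ 2 * (2 * k) by omega)
      linarith
    have q4 : θ * Real.log ((2 * k : ℕ) : ℝ) ≤ θ * Real.log n + |θ| * 1 := by
      have q5 := neg_abs_le (θ * (Real.log n - Real.log ((2 * k : ℕ) : ℝ)))
      rw [abs_mul, abs_of_nonneg (show 0 ≤ Real.log n - Real.log ((2 * k : ℕ) : ℝ) by linarith)]
        at q5
      have q6 := mul_le_mul_of_nonneg_left q1 (abs_nonneg θ)
      linarith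
    have q7 := mul_le_mul_of_nonneg_left q0 (show 0 ≤ 6 * τ by positivity)
    have q8 := le_abs_self B
    rw [hε12]
    linarith

/-- the logarithmic scale at twice the argument -/
theorem ll_two {n : ℕ} (hn : 3 ≤ n) :
    |Real.log 2 / Real.log n - (Real.log (Real.log ((2 * n : ℕ) : ℝ)) -
      Real.log (Real.log n))| ≤ 1 / Real.log n ^ 2 := by
  have hn0 : (0 : ℝ) < n := by exact_mod_cast (show 0 < n by omega)
  have hl : 0 < Real.log (n : ℝ) := Real.log_pos (by exact_mod_cast (show 1 < n by omega))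
  have hl2 : 0 < Real.log 2 := Real.log_pos (by norm_num)
  have hl2' : Real.log 2 ≤ 1 := by have := Real.log_two_lt_d9; linarith
  have e : Real.log ((2 * n : ℕ) : ℝ) = Real.log 2 + Real.log n := by
    push_cast
    rw [Real.log_mul (by norm_num) hn0.ne']
  set x := Real.log 2 / Real.log n with hx
  have hx0 : 0 < x := by positivity
  have e2 : Real.log (Real.log ((2 * n : ℕ) : ℝ)) - Real.log (Real.log n) = Real.log (1 + x) := by
    rw [e, ← Real.log_div (by positivity) hl.ne']
    congr 1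
    rw [hx]
    field_simp
    ring
  rw [e2]
  have h1 : Real.log (1 + x) ≤ x := by
    have := Real.log_le_sub_one_of_pos (show 0 < 1 + x by linarith)
    linarith
  have h2 : x - x ^ 2 ≤ Real.log (1 + x) := by
    have h3 := Real.one_sub_inv_le_log_of_pos (show 0 < 1 + x by linarith)
    have h4 : x - x ^ 2 ≤ 1 - (1 + x)⁻¹ := by
      have h5 : 1 - (1 + x)⁻¹ = x / (1 + x) := by
        field_simp
        ring
      rw [h5, le_div_iff₀ (by linarith)]
      have : 0 ≤ x ^ 3 := by positivity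
      nlinarith
    linarith
  rw [abs_of_nonneg (by linarith)]
  have h5 : x ^ 2 ≤ 1 / Real.log n ^ 2 := by
    rw [hx, div_pow]
    refine div_le_div_of_nonneg_right ?_ (by positivity)
    nlinarith
  linarith

/-- **logarithmic scale, upper bound** -/
theorem up2 (h : Sm L C B) {S : Set ℕ} (heS : ∀ m ∈ S, Even m)
    (hS : ∀ δ : ℝ, 0 < δ → ∀ᶠ n : ℕ in atTop, ∃ m ∈ S, n ≤ m ∧
      (m : ℝ) ≤ n + δ * ((n : ℝ) ^ (1 / 4 : ℝ) / Real.log n ^ (3 / 2 : ℝ)))
    {θ κ : ℝ} (hd : ∀ ε : ℝ, 0 < ε → ∀ᶠ m : ℕ in atTop, m ∈ S →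
      L (2 * m) - L m ≤ θ * Real.log 2 + (κ + ε) * (Real.log 2 / Real.log m))
    (ε : ℝ) (hε : 0 < ε) :
    ∀ᶠ n : ℕ in atTop, L n ≤ θ * Real.log n + (κ + ε) * Real.log (Real.log n) := by
  set τ := ε / 60 with hτ
  have hτ0 : 0 < τ := by positivity
  have hl2 : (0.69 : ℝ) ≤ Real.log 2 := by have := Real.log_two_gt_d9; linarith
  have hl2' : Real.log 2 ≤ 1 := by have := Real.log_two_lt_d9; linarith
  set δ := τ / (4 * C + 1) with hδ
  have hC := h.C0
  have hδ0 : 0 < δ := by positivity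
  have hCδ : 4 * C * δ ≤ τ := by
    rw [hδ, mul_div_assoc', div_le_iff₀ (by positivity)]
    nlinarith
  have hsm : ∀ᶠ n : ℕ in atTop, C * (r n * Real.log n) + (|θ| + |κ|) * (2 * (Real.log n / n)) ≤
      4 * τ := by
    have h1 : Tendsto (fun n : ℕ => C * (r n * Real.log n) +
        (|θ| + |κ|) * (2 * (Real.log n / n))) atTop (𝓝 (C * 0 + (|θ| + |κ|) * (2 * 0))) := by
      refine Tendsto.add (r_log.const_mul C) (Tendsto.const_mul _ (Tendsto.const_mul _ ?_))
      exact Pool.Agent.Y943.SL.log_over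
    rw [mul_zero, mul_zero, mul_zero, add_zero] at h1
    exact (h1.eventually_lt_const (by positivity : 0 < 4 * τ)).mono fun _ h => h.le
  obtain ⟨N1, hN1⟩ := eventually_atTop.1 (hS δ hδ0)
  obtain ⟨N2, hN2⟩ := eventually_atTop.1 (hd τ hτ0)
  obtain ⟨N3, hN3⟩ := eventually_atTop.1 hsm
  have hgap : ∀ᶠ n : ℕ in atTop, δ * ((n : ℝ) ^ (1 / 4 : ℝ) / Real.log n ^ (3 / 2 : ℝ)) ≤ n := by
    have h1 : Tendsto (fun n : ℕ => (n : ℝ) ^ (3 / 4 : ℝ)) atTop atTop :=
      (tendsto_rpow_atTop (by norm_num)).comp tendsto_natCast_atTop_atTop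
    filter_upwards [log_tend.eventually_ge_atTop 1, eventually_ge_atTop 1,
      h1.eventually_ge_atTop δ] with n hn hn1 h2
    have hn0 : (0 : ℝ) < n := by exact_mod_cast hn1
    have h3 : 1 ≤ Real.log n ^ (3 / 2 : ℝ) := Real.one_le_rpow hn (by norm_num)
    have h4 : (n : ℝ) ^ (1 / 4 : ℝ) / Real.log n ^ (3 / 2 : ℝ) ≤ (n : ℝ) ^ (1 / 4 : ℝ) :=
      div_le_self (by positivity) h3
    calc δ * ((n : ℝ) ^ (1 / 4 : ℝ) / Real.log n ^ (3 / 2 : ℝ)) ≤
        (n : ℝ) ^ (3 / 4 : ℝ) * (n : ℝ) ^ (1 / 4 : ℝ) := mul_le_mul h2 h4 (by positivity)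
          (by positivity)
      _ = n := by
        rw [← Real.rpow_add hn0]
        norm_num
  obtain ⟨N4, hN4⟩ := eventually_atTop.1 hgap
  obtain ⟨N5, hN5⟩ := eventually_atTop.1 ((log_tend.const_mul_atTop hτ0).eventually_ge_atTop
    (2 * |κ| + 2 * τ + 1))
  obtain ⟨N6, hN6⟩ := eventually_atTop.1 (log_tend.eventually_ge_atTop (1 : ℝ))
  obtain ⟨A, hA⟩ := pot
    (f := fun n => L n - (θ * Real.log n + κ * Real.log (Real.log n)))
    (e := fun n => 4 * τ / Real.log n)
    (Φ := fun n => 50 * τ * Real.log (Real.log n)) (N := N1 + N2 + N3 + N4 + N5 + N6 + 8)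
    (by omega)
    (fun n hn he => by
      obtain ⟨m, hm, hnm, hmG⟩ := hN1 n (by omega)
      have hg := hN4 n (by omega)
      have hm2 : m ≤ 2 * n := by
        have : (m : ℝ) ≤ 2 * n := by linarith
        exact_mod_cast this
      have hl1 := hN6 n (by omega)
      have hl0 : 0 < Real.log (n : ℝ) := by linarith
      have i1 := h.near (by omega) he (heS m hm) hnm hm2
      have i2 := hN2 m (by omega) hm
      have i3 := r_gap2 (show 3 ≤ n by omega)
      have hn0 : (0 : ℝ) < n := by exact_mod_cast (show 0 < n by omega)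
      have i4 : 4 * C * ((m : ℝ) - n) * r n ≤ τ / Real.log n := by
        have q1 : (m : ℝ) - n ≤ δ * ((n : ℝ) ^ (1 / 4 : ℝ) / Real.log n ^ (3 / 2 : ℝ)) := by
          linarith
        have q2 := mul_le_mul_of_nonneg_left q1 (show 0 ≤ 4 * C by positivity)
        have q3 := mul_le_mul_of_nonneg_right q2 (r_nonneg n)
        refine q3.trans ?_
        rw [show 4 * C * (δ * ((n : ℝ) ^ (1 / 4 : ℝ) / Real.log n ^ (3 / 2 : ℝ))) * r n =
          4 * C * δ * ((n : ℝ) ^ (1 / 4 : ℝ) / Real.log n ^ (3 / 2 : ℝ) * r n) by ring, i3,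
          mul_one_div]
        exact div_le_div_of_nonneg_right hCδ hl0.le
      have i5 : Real.log ((2 * n : ℕ) : ℝ) = Real.log 2 + Real.log n := by
        push_cast
        rw [Real.log_mul (by norm_num) hn0.ne']
      -- `log 2 / log m` against `log 2 / log n`
      have hm0 : (0 : ℝ) < m := by exact_mod_cast (show 0 < m by omega)
      have j1 : Real.log n ≤ Real.log m := Real.log_le_log hn0 (by exact_mod_cast hnm)
      have j2 : Real.log m ≤ Real.log 2 + Real.log n := by
        rw [← i5]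
        exact Real.log_le_log hm0 (by exact_mod_cast hm2)
      have j3 : |Real.log 2 / Real.log m - Real.log 2 / Real.log n| ≤ 1 / Real.log n ^ 2 := by
        rw [abs_sub_comm, abs_of_nonneg (by
          have := div_le_div_of_nonneg_left (show 0 ≤ Real.log 2 by linarith) hl0 j1
          linarith)]
        have q1 : Real.log 2 / Real.log n - Real.log 2 / Real.log m =
            Real.log 2 * (Real.log m - Real.log n) / (Real.log n * Real.log m) := by
          have : Real.log (m : ℝ) ≠ 0 := by linarith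
          field_simp
        rw [q1]
        refine div_le_div₀ (by norm_num) ?_ (by positivity) ?_
        · have : Real.log m - Real.log n ≤ 1 := by linarith
          nlinarith
        · nlinarith
      have j4 := ll_two (show 3 ≤ n by omega)
      have j5 : κ * (Real.log 2 / Real.log m) - κ * (Real.log (Real.log ((2 * n : ℕ) : ℝ)) -
          Real.log (Real.log n)) ≤ |κ| * (2 / Real.log n ^ 2) := by
        have q1 := le_abs_self (κ * (Real.log 2 / Real.log m -
          (Real.log (Real.log ((2 * n : ℕ) : ℝ)) - Real.log (Real.log n))))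
        rw [abs_mul] at q1
        have q2 := abs_sub_le (Real.log 2 / Real.log m) (Real.log 2 / Real.log n)
          (Real.log (Real.log ((2 * n : ℕ) : ℝ)) - Real.log (Real.log n))
        have q3 : |Real.log 2 / Real.log m - (Real.log (Real.log ((2 * n : ℕ) : ℝ)) -
            Real.log (Real.log n))| ≤ 2 / Real.log n ^ 2 := by
          have : (2 : ℝ) / Real.log n ^ 2 = 1 / Real.log n ^ 2 + 1 / Real.log n ^ 2 := by ring
          linarith
        have q4 := mul_le_mul_of_nonneg_left q3 (abs_nonneg κ)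
        linarith
      have j6 : |κ| * (2 / Real.log n ^ 2) ≤ τ / Real.log n := by
        rw [mul_div_assoc', div_le_div_iff₀ (by positivity) hl0]
        have q1 := hN5 n (by omega)
        have q2 : |κ| * 2 ≤ τ * Real.log n := by linarith
        calc |κ| * 2 * Real.log n ≤ τ * Real.log n * Real.log n :=
              mul_le_mul_of_nonneg_right q2 hl0.le
          _ = _ := by ring
      have j7 : τ * (Real.log 2 / Real.log m) ≤ τ / Real.log n := by
        rw [mul_div_assoc']
        exact div_le_div₀ hτ0.le (mul_le_of_le_one_right hτ0.le hl2') hl0 j1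
      have j8 : 4 * τ / Real.log n = 4 * (τ / Real.log n) := by ring
      have j9 : 0 ≤ τ / Real.log n := by positivity
      rw [j8, i5] at *
      linarith)
    (fun n hn he => by
      have i1 := (abs_le.1 (h.two n (by omega))).2
      have i2 := hN3 n (by omega)
      have hn0 : (0 : ℝ) < n := by exact_mod_cast (show 0 < n by omega)
      have hl1 := hN6 n (by omega)
      have hl0 : 0 < Real.log (n : ℝ) := by linarith
      have q0 : Real.log (n : ℝ) ≤ Real.log ((n + 2 : ℕ) : ℝ) :=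
        Real.log_le_log hn0 (by push_cast; linarith)
      have i3 : Real.log ((n + 2 : ℕ) : ℝ) - Real.log n ≤ 2 / n := by
        rw [← Real.log_div (by positivity) hn0.ne']
        have q1 := Real.log_le_sub_one_of_pos (show 0 < ((n + 2 : ℕ) : ℝ) / n by positivity)
        have q2 : ((n + 2 : ℕ) : ℝ) / n - 1 = 2 / n := by
          push_cast
          field_simp
          ring
        linarith
      have i3' : Real.log (Real.log ((n + 2 : ℕ) : ℝ)) - Real.log (Real.log n) ≤ 2 / n := by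
        rw [← Real.log_div (by linarith) hl0.ne']
        have q1 := Real.log_le_sub_one_of_pos (show 0 < Real.log ((n + 2 : ℕ) : ℝ) /
          Real.log n from div_pos (by linarith) hl0)
        have q2 : Real.log ((n + 2 : ℕ) : ℝ) / Real.log n - 1 ≤
            Real.log ((n + 2 : ℕ) : ℝ) - Real.log n := by
          rw [div_sub_one hl0.ne', div_le_iff₀ hl0]
          nlinarith
        linarith
      have i3'' : 0 ≤ Real.log (Real.log ((n + 2 : ℕ) : ℝ)) - Real.log (Real.log n) := by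
        have := Real.log_le_log hl0 q0
        linarith
      have i4 : ∀ (c d : ℝ), 0 ≤ d → d ≤ 2 / n → -(c * d) ≤ |c| * (2 / n) := by
        intro c d h1 h2
        have q1 := neg_abs_le (c * d)
        rw [abs_mul, abs_of_nonneg h1] at q1
        have q2 := mul_le_mul_of_nonneg_left h2 (abs_nonneg c)
        linarith
      have i5 := i4 θ _ (show 0 ≤ Real.log ((n + 2 : ℕ) : ℝ) - Real.log n by linarith) i3
      have i6 := i4 κ _ i3'' i3'
      have i7 : C * r n + (|θ| + |κ|) * (2 / n) ≤ 4 * τ / Real.log n := by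
        rw [le_div_iff₀ hl0]
        calc (C * r n + (|θ| + |κ|) * (2 / n)) * Real.log n =
            C * (r n * Real.log n) + (|θ| + |κ|) * (2 * (Real.log n / n)) := by ring
          _ ≤ _ := i2
      linarith)
    (fun n hn he => by
      obtain ⟨k0, k1, k2⟩ := half_log (show 8 ≤ n by omega)
      have hl1 := hN6 (2 * (n / 4)) (by omega)
      have hl1' := hN6 (4 * (n / 4)) (by omega)
      have hn1 := hN6 n (by omega)
      have hl0 : 0 < Real.log (n : ℝ) := by linarith
      have hk0 : 0 < Real.log ((2 * (n / 4) : ℕ) : ℝ) := by linarith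
      have i1 : 4 * τ / Real.log ((2 * (n / 4) : ℕ) : ℝ) ≤ 16 * τ / Real.log n := by
        rw [div_le_div_iff₀ hk0 hl0]
        have := mul_le_mul_of_nonneg_left k2 (show 0 ≤ 4 * τ by positivity)
        linarith
      have i2 : 4 * τ / Real.log ((4 * (n / 4) : ℕ) : ℝ) ≤ 16 * τ / Real.log n := by
        refine le_trans (div_le_div_of_nonneg_left (by positivity) hk0 ?_) i1
        refine Real.log_le_log (by exact_mod_cast k0) ?_
        exact_mod_cast (show 2 * (n / 4) ≤ 4 * (n / 4) by omega)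
      have i3 : 0.69 / Real.log n ≤ Real.log (Real.log n) -
          Real.log (Real.log ((2 * (n / 4) : ℕ) : ℝ)) := by
        rw [← Real.log_div hl0.ne' hk0.ne']
        have q1 := Real.one_sub_inv_le_log_of_pos (show 0 < Real.log n /
          Real.log ((2 * (n / 4) : ℕ) : ℝ) by positivity)
        rw [inv_div] at q1
        refine le_trans ?_ q1
        rw [one_sub_div hl0.ne']
        exact div_le_div_of_nonneg_right (by linarith) hl0.le
      have i4 : 16 * τ / Real.log n + 16 * τ / Real.log n ≤ 50 * τ * (0.69 / Real.log n) := by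
        have : 50 * τ * (0.69 / Real.log n) = 34.5 * τ / Real.log n := by ring
        rw [this, ← add_div]
        exact div_le_div_of_nonneg_right (by linarith) hl0.le
      have i5 := mul_le_mul_of_nonneg_left i3 (show 0 ≤ 50 * τ by positivity)
      have i6 : 0 ≤ 16 * τ / Real.log n := by positivity
      constructor <;> linarith)
  filter_upwards [eventually_ge_atTop (N1 + N2 + N3 + N4 + N5 + N6 + 10),
    (loglog_tend.const_mul_atTop (show 0 < 10 * τ by positivity)).eventually_ge_atTop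
      (A + |B| + |θ| * 1 + |κ| * 1), loglog_tend.eventually_ge_atTop 0] with n hn hbig hll
  have hn0 : (0 : ℝ) < n := by exact_mod_cast (show 0 < n by omega)
  have hε12 : ε = 60 * τ := by rw [hτ]; ring
  rcases Nat.even_or_odd n with he | ho
  · have i1 := hA n (by omega) he
    have := abs_nonneg B
    have := abs_nonneg θ
    have := abs_nonneg κ
    rw [hε12]
    linarith
  · obtain ⟨k, hk⟩ := ho
    have i1 := hA (2 * k) (by omega) (even_two_mul k)
    have i2 := (abs_le.1 (h.one (2 * k) (by omega))).2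
    rw [← hk] at i2
    have hk0 : (0 : ℝ) < ((2 * k : ℕ) : ℝ) := by exact_mod_cast (show 0 < 2 * k by omega)
    have hlk := hN6 (2 * k) (by omega)
    have q0 : Real.log ((2 * k : ℕ) : ℝ) ≤ Real.log n := Real.log_le_log hk0 (by
      exact_mod_cast (show 2 * k ≤ n by omega))
    have q1 : Real.log n - Real.log ((2 * k : ℕ) : ℝ) ≤ 1 := by
      rw [← Real.log_div hn0.ne' hk0.ne']
      have q2 := Real.log_le_sub_one_of_pos (show 0 < (n : ℝ) / ((2 * k : ℕ) : ℝ) by positivity)
      have q3 : (n : ℝ) / ((2 * k : ℕ) : ℝ) ≤ 2 := by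
        rw [div_le_iff₀ hk0]
        exact_mod_cast (show n ≤ 2 * (2 * k) by omega)
      linarith
    have q0' : Real.log (Real.log ((2 * k : ℕ) : ℝ)) ≤ Real.log (Real.log n) :=
      Real.log_le_log (by linarith) q0
    have q1' : Real.log (Real.log n) - Real.log (Real.log ((2 * k : ℕ) : ℝ)) ≤ 1 := by
      rw [← Real.log_div (by linarith) (by linarith)]
      have q2 := Real.log_le_sub_one_of_pos (show 0 < Real.log n /
        Real.log ((2 * k : ℕ) : ℝ) from div_pos (by linarith) (by linarith))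
      have q3 : Real.log n / Real.log ((2 * k : ℕ) : ℝ) - 1 ≤
          Real.log n - Real.log ((2 * k : ℕ) : ℝ) := by
        rw [div_sub_one (by linarith), div_le_iff₀ (by linarith)]
        nlinarith
      linarith
    have q4 : ∀ (c x y : ℝ), x ≤ y → y - x ≤ 1 → c * x ≤ c * y + |c| * 1 := by
      intro c x y h1 h2
      have q5 := neg_abs_le (c * (y - x))
      rw [abs_mul, abs_of_nonneg (show 0 ≤ y - x by linarith)] at q5
      have q6 := mul_le_mul_of_nonneg_left h2 (abs_nonneg c)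
      linarith
    have q5 := q4 θ _ _ q0 q1
    have q6 := q4 κ _ _ q0' q1'
    have q7 := mul_le_mul_of_nonneg_left q0' (show 0 ≤ 50 * τ by positivity)
    have q8 := le_abs_self B
    rw [hε12]
    linarith

end Pool.Agent.P8H98.DF.Dbl4
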