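import Pool.Agent.P8H98.DF.Dbl4
import Pool.Agent.P8H98.DF.All

/-!
# Self-avoiding walks on `ℤ⁴`: bounds for the doubling ratios along sparse lengths, assembly
-/

set_option autoImplicit false

namespace Pool.Agent.P8H98.DF.Dbl4

open Filter Topology

theorem sm_mo {p : ℝ} (hp : 0 ≤ p) : ∃ C B : ℝ, Sm (fun n => Real.log (mo p n)) C B := by
  obtain ⟨-, hr⟩ := momentT p
  obtain ⟨C1, hC1p, hC1⟩ := hr 1 le_rfl
  obtain ⟨B1, hB1⟩ := (wkT hp).par
  obtain ⟨B2, hB2⟩ := wkc.par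
  refine ⟨C1, B1 + B2, hC1p.le, fun n hn => ?_, fun n hn => ?_⟩
  · have h2 := hC1 n (by omega)
    rw [Finset.sum_range_succ, Finset.sum_range_one] at h2
    simp only [pow_zero, pow_one, Nat.choose_zero_right, Nat.choose_self,
        Nat.cast_one, mul_one, one_mul, mul_zero, add_zero, neg_mul] at h2
    have e : Real.log (mo p (n + 2)) - Real.log (mo p n) = -(Real.log (mo p n) +
      -Real.log (mo p (n + 2))) := by ring
    rw [e, abs_neg]
    exact h2
  · have key : ∀ m : ℕ, 1 ≤ m → Real.log (mo p m) =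
        Real.log (w4 p m / μ4 ^ m) - Real.log (cN m / μ4 ^ m) := by
      intro m hm
      have h1 := (wkT hp).cpos m
      have h2 := wkc.cpos m
      have h3 := pow_pos wkc.hμ m
      rw [mo_eq m hm, Real.log_div h1.ne' h2.ne', Real.log_div h1.ne' h3.ne',
        Real.log_div h2.ne' h3.ne']
      ring
    rw [key n (by omega), key (n + 1) (by omega)]
    have h1 := hB1 n (by omega)
    have h2 := hB2 n (by omega)
    rw [abs_le] at *
    constructor <;> linarith [h1.1, h1.2, h2.1, h2.2]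

theorem mo_pos {p : ℝ} (hp : 0 ≤ p) {n : ℕ} (hn : 1 ≤ n) : 0 < mo p n := by
  rw [mo_eq n hn]
  exact div_pos ((wkT hp).cpos n) (wkc.cpos n)

theorem log_two_rpow (x : ℝ) : Real.log ((2 : ℝ) ^ x) = x * Real.log 2 :=
  Real.log_rpow (by norm_num) x

/-- power scale -/
theorem main1 {p : ℝ} (hp : 0 ≤ p) {S : Set ℕ} (heS : ∀ m ∈ S, Even m)
    (hS : ∀ δ : ℝ, 0 < δ → ∀ᶠ n : ℕ in atTop, ∃ m ∈ S, n ≤ m ∧
      (m : ℝ) ≤ n + δ * ((n : ℝ) ^ (1 / 4 : ℝ) / Real.sqrt (Real.log n))) (θ : ℝ) :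
    ((∀ ε : ℝ, 0 < ε → ∀ᶠ m : ℕ in atTop, m ∈ S → mo p (2 * m) ≤ 2 ^ (θ + ε) * mo p m) →
      ∀ ε : ℝ, 0 < ε → ∀ᶠ n : ℕ in atTop, mo p n ≤ (n : ℝ) ^ (θ + ε)) ∧
    ((∀ ε : ℝ, 0 < ε → ∀ᶠ m : ℕ in atTop, m ∈ S → 2 ^ (θ - ε) * mo p m ≤ mo p (2 * m)) →
      ∀ ε : ℝ, 0 < ε → ∀ᶠ n : ℕ in atTop, (n : ℝ) ^ (θ - ε) ≤ mo p n) := by
  obtain ⟨C, B, hs⟩ := sm_mo hp
  constructor
  · intro hd ε hε
    have h1 := up1 hs heS hS (θ := θ) (fun ε hε => by
      filter_upwards [hd ε hε, eventually_ge_atTop 1] with m hm hm1 hmS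
      have h2 := hm hmS
      have h3 := mo_pos hp hm1
      have h4 := mo_pos hp (show 1 ≤ 2 * m by omega)
      have h5 := Real.log_le_log h4 h2
      rw [Real.log_mul (by positivity) h3.ne', log_two_rpow] at h5
      linarith) ε hε
    filter_upwards [h1, eventually_ge_atTop 1] with n hn hn1
    have hn0 : (0 : ℝ) < n := by exact_mod_cast hn1
    have h3 := mo_pos hp hn1
    rw [Real.rpow_def_of_pos hn0, ← Real.log_le_iff_le_exp h3]
    linarith
  · intro hd ε hε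
    have h1 := up1 hs.neg heS hS (θ := -θ) (fun ε hε => by
      filter_upwards [hd ε hε, eventually_ge_atTop 1] with m hm hm1 hmS
      have h2 := hm hmS
      have h3 := mo_pos hp hm1
      have h5 := Real.log_le_log (by positivity) h2
      rw [Real.log_mul (by positivity) h3.ne', log_two_rpow] at h5
      linarith) ε hε
    filter_upwards [h1, eventually_ge_atTop 1] with n hn hn1
    have hn0 : (0 : ℝ) < n := by exact_mod_cast hn1
    have h3 := mo_pos hp hn1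
    rw [Real.rpow_def_of_pos hn0, ← Real.le_log_iff_exp_le h3]
    linarith

/-- logarithmic scale -/
theorem main2 {p : ℝ} (hp : 0 ≤ p) {S : Set ℕ} (heS : ∀ m ∈ S, Even m)
    (hS : ∀ δ : ℝ, 0 < δ → ∀ᶠ n : ℕ in atTop, ∃ m ∈ S, n ≤ m ∧
      (m : ℝ) ≤ n + δ * ((n : ℝ) ^ (1 / 4 : ℝ) / Real.log n ^ (3 / 2 : ℝ))) (θ κ : ℝ) :
    ((∀ ε : ℝ, 0 < ε → ∀ᶠ m : ℕ in atTop, m ∈ S →
        mo p (2 * m) ≤ 2 ^ (θ + (κ + ε) / Real.log m) * mo p m) →
      ∀ ε : ℝ, 0 < ε → ∀ᶠ n : ℕ in atTop, mo p n ≤ (n : ℝ) ^ θ * Real.log n ^ (κ + ε)) ∧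
    ((∀ ε : ℝ, 0 < ε → ∀ᶠ m : ℕ in atTop, m ∈ S →
        2 ^ (θ + (κ - ε) / Real.log m) * mo p m ≤ mo p (2 * m)) →
      ∀ ε : ℝ, 0 < ε → ∀ᶠ n : ℕ in atTop, (n : ℝ) ^ θ * Real.log n ^ (κ - ε) ≤ mo p n) := by
  obtain ⟨C, B, hs⟩ := sm_mo hp
  constructor
  · intro hd ε hε
    have h1 := up2 hs heS hS (θ := θ) (κ := κ) (fun ε hε => by
      filter_upwards [hd ε hε, eventually_ge_atTop 1] with m hm hm1 hmS
      have h2 := hm hmS
      have h3 := mo_pos hp hm1
      have h4 := mo_pos hp (show 1 ≤ 2 * m by omega)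
      have h5 := Real.log_le_log h4 h2
      rw [Real.log_mul (by positivity) h3.ne', log_two_rpow] at h5
      have h6 : (θ + (κ + ε) / Real.log m) * Real.log 2 =
        θ * Real.log 2 + (κ + ε) * (Real.log 2 / Real.log m) := by ring
      linarith) ε hε
    filter_upwards [h1, eventually_ge_atTop 1, log_tend.eventually_ge_atTop 1] with n hn hn1 hl
    have hn0 : (0 : ℝ) < n := by exact_mod_cast hn1
    have hl0 : 0 < Real.log (n : ℝ) := by linarith
    have h3 := mo_pos hp hn1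
    rw [Real.rpow_def_of_pos hn0, Real.rpow_def_of_pos hl0, ← Real.exp_add,
      ← Real.log_le_iff_le_exp h3]
    linarith
  · intro hd ε hε
    have h1 := up2 hs.neg heS hS (θ := -θ) (κ := -κ) (fun ε hε => by
      filter_upwards [hd ε hε, eventually_ge_atTop 1] with m hm hm1 hmS
      have h2 := hm hmS
      have h3 := mo_pos hp hm1
      have h5 := Real.log_le_log (by positivity) h2
      rw [Real.log_mul (by positivity) h3.ne', log_two_rpow] at h5
      have h6 : (θ + (κ - ε) / Real.log m) * Real.log 2 =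
        θ * Real.log 2 + (κ - ε) * (Real.log 2 / Real.log m) := by ring
      linarith) ε hε
    filter_upwards [h1, eventually_ge_atTop 1, log_tend.eventually_ge_atTop 1] with n hn hn1 hl
    have hn0 : (0 : ℝ) < n := by exact_mod_cast hn1
    have hl0 : 0 < Real.log (n : ℝ) := by linarith
    have h3 := mo_pos hp hn1
    rw [Real.rpow_def_of_pos hn0, Real.rpow_def_of_pos hl0, ← Real.exp_add,
      ← Real.le_log_iff_exp_le h3]
    linarith

end Pool.Agent.P8H98.DF.Dbl4
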