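import Mathlib

/-!
# Self-avoiding walks on `ℤ⁴` as words (project DF): definitions

Words over the eight unit directions are lists; the *last* letter of the list is the first step
(so `d :: w` is the walk `w` followed by the step `d`).
-/

set_option autoImplicit false

namespace Pool.Agent.P8H98.DF

open Finset Filter Topology
open scoped Classical

/-! ## The lattice -/

abbrev Z4 := ℤ × ℤ × ℤ × ℤ

/-- the eight unit directions -/
inductive Dir
  | xp | xm | yp | ym | zp | zm | tp | tm
  deriving DecidableEq

instance : Fintype Dir where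
  elems := {.xp, .xm, .yp, .ym, .zp, .zm, .tp, .tm}
  complete := by intro x; cases x <;> decide

def vec : Dir → Z4
  | .xp => (1, 0, 0, 0)
  | .xm => (-1, 0, 0, 0)
  | .yp => (0, 1, 0, 0)
  | .ym => (0, -1, 0, 0)
  | .zp => (0, 0, 1, 0)
  | .zm => (0, 0, -1, 0)
  | .tp => (0, 0, 0, 1)
  | .tm => (0, 0, 0, -1)

def neg : Dir → Dir
  | .xp => .xm
  | .xm => .xp
  | .yp => .ym
  | .ym => .yp
  | .zp => .zm
  | .zm => .zp
  | .tp => .tm
  | .tm => .tp

/-- the axis of a direction -/
def ax : Dir → Fin 4
  | .xp => 0
  | .xm => 0
  | .yp => 1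
  | .ym => 1
  | .zp => 2
  | .zm => 2
  | .tp => 3
  | .tm => 3

def perp (a b : Dir) : Prop := ax a ≠ ax b

instance (a b : Dir) : Decidable (perp a b) := inferInstanceAs (Decidable (ax a ≠ ax b))

/-- end point of a walk from `0` -/
def pos : List Dir → Z4
  | [] => 0
  | d :: w => pos w + vec d

/-- the vertices of a walk from `0`, the last one first; the last entry of the list is `0` -/
def path : List Dir → List Z4
  | [] => [0]
  | d :: w => (pos w + vec d) :: path w

/-- self-avoiding walks -/
def SAW (w : List Dir) : Prop := (path w).Nodup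

/-- `(i, d)` is a free plaquette of `w`: the `i`-th edge can be replaced by three edges around the
square in direction `d` -/
def site (w : List Dir) (i : ℕ) (d : Dir) : Prop :=
  i < w.length ∧ perp d (w.getD i .xp) ∧ pos (w.drop (i + 1)) + vec d ∉ path w ∧
    pos (w.drop (i + 1)) + vec d + vec (w.getD i .xp) ∉ path w

/-- three consecutive edges around a square at the positions `j, j + 1, j + 2` -/
def bump (w : List Dir) (j : ℕ) : Prop :=
  j + 2 < w.length ∧ w.getD j .xp = neg (w.getD (j + 2) .xp) ∧
    perp (w.getD j .xp) (w.getD (j + 1) .xp)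

noncomputable section

/-- the set of free plaquettes -/
def sites (w : List Dir) : Finset (ℕ × Dir) :=
  (range w.length ×ˢ (univ : Finset Dir)).filter (fun q => site w q.1 q.2)

/-- the set of bumps -/
def bumps (w : List Dir) : Finset ℕ := (range w.length).filter (fun j => bump w j)

/-- the number of free plaquettes -/
def fr (w : List Dir) : ℕ := (sites w).card

/-- the number of bumps -/
def bu (w : List Dir) : ℕ := (bumps w).card

/-- all words of length `n` -/
def W (n : ℕ) : Finset (List Dir) :=
  (univ : Finset (Fin n → Dir)).image List.ofFn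

/-- self-avoiding words of length `n` -/
def SS (n : ℕ) : Finset (List Dir) := (W n).filter SAW

/-- contacts of the end point of `w` with vertices visited at least two steps before -/
def Jc (w : List Dir) : Finset Dir := univ.filter (fun v => pos w + vec v ∈ (path w).tail.tail)

/-- the exponent of a step `v`, in terms of the previous directions `p, b`, the contacts `J` of the
end point and the contacts `B` of the previous point -/
def e0 (p b : Dir) (J B : Finset Dir) (v : Dir) : ℤ :=
  2 * (J.card : ℤ) + ((J.filter (fun j => perp j b ∧ j ≠ neg p)).card : ℤ) - 6 +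
    (if perp v b then 2 else 0) + ((J.filter (fun j => perp j v)).card : ℤ) -
    (if perp v b ∧ v ∈ B then 1 else 0)

/-- the exponent of the last step of `v :: w` -/
def ex (w : List Dir) (v : Dir) : ℤ :=
  e0 (w.getD 1 (w.getD 0 .xp)) (w.getD 0 .xp) (Jc w) (Jc w.tail) v

/-- the total exponent -/
def Gx : List Dir → ℤ
  | [] => 0
  | [_] => 0
  | v :: b :: w => Gx (b :: w) + ex (b :: w) v

/-- the potential -/
def Hs (p b : Dir) (u : Prop) (k : ℕ) : ℝ :=
  if p = b then 926 + 19 * k else if u then 891 + 17 * k else 784 + 13 * k

/-- the potential of a walk -/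
def Hx (w : List Dir) : ℝ :=
  Hs (w.getD 1 (w.getD 0 .xp)) (w.getD 0 .xp) (neg (w.getD 1 (w.getD 0 .xp)) ∈ Jc w)
    ((Jc w.tail).filter (fun j => perp j (w.getD 0 .xp))).card

end

end Pool.Agent.P8H98.DF
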