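import Pool.Agent.P8H98.DF.FinB

/-!
# FIN: the finite inequality, real form
-/

set_option autoImplicit false

namespace Pool.Agent.P8H98.DF.FIN

open Pool.Agent.P8H98.DF

theorem EE_le (p b : Dir) (j : Dir → Bool) (x : Bool) (v : Dir) : EE p b j x v ≤ 34 := by
  unfold EE
  have h1 := cnt_le j
  have h2 := cnt_le (fun d => j d && (prpB d b && !(eqB d (neg p))))
  have h3 := cnt_le (fun d => j d && prpB d v)
  have h4 : (bif prpB v b then (bif x then 1 else 2) else 0) ≤ 2 := by
    cases prpB v b <;> cases x <;> simp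
  omega

theorem pow_eq (E : ℕ) (hE : E ≤ 34) :
    (26 / 25 : ℝ) ^ ((E : ℤ) - 6) * (26 ^ 6 * 25 ^ 28) = 26 ^ E * 25 ^ (34 - E) := by
  rw [zpow_sub₀ (by norm_num), zpow_natCast]
  have h1 : ((26 / 25 : ℝ)) ^ (6 : ℤ) = 26 ^ 6 / 25 ^ 6 := by norm_num
  rw [h1, div_pow]
  have h2 : (25 : ℝ) ^ 34 = 25 ^ E * 25 ^ (34 - E) := by
    rw [← pow_add]
    congr 1
    omega
  have h3 : (25 : ℝ) ^ E ≠ 0 := by positivity
  field_simp
  rw [← h2]

theorem DD_eq : ((DD : ℕ) : ℝ) = 26 ^ 6 * 25 ^ 28 * 1000 := by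
  unfold DD
  push_cast
  ring

open scoped Classical in
theorem tm_eq (p b : Dir) (J B : Finset Dir) (v : Dir) :
    (if v ≠ neg b ∧ v ∉ J then (26 / 25 : ℝ) ^ (e0 p b J B v) *
      (if v = neg p ∧ perp v b then (1 / 1000 : ℝ) else 1) *
      Hs b v (v ∈ B ∨ v = neg p) (J.filter (fun j => perp j v)).card else 0) *
      (26 ^ 6 * 25 ^ 28 * 1000) =
      (tmv p b (fun d => decide (d ∈ J)) (decide (v ∈ B)) v : ℝ) := by
  unfold tmv
  by_cases h0 : v ≠ neg b ∧ v ∉ J
  · have h0' : ((fun d => decide (d ∈ J)) v) = false := decide_eq_false h0.2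
    rw [if_pos h0, (eqB_false v (neg b)).2 h0.1, h0', Bool.false_or, cond_false]
    have c3 : (J.filter (fun j => perp j v)).card =
        cnt (fun d => decide (d ∈ J) && prpB d v) := card_cnt _ _ (by
      intro d
      rw [Finset.mem_filter, Bool.and_eq_true, prpB_iff, decide_eq_true_iff])
    rw [HN_eq b v (v ∈ B ∨ v = neg p) (decide (v ∈ B) || eqB v (neg p)) (by
      rw [Bool.or_eq_true, decide_eq_true_iff, eqB_iff]), c3, EE_eq]
    have hE := EE_le p b (fun d => decide (d ∈ J)) (decide (v ∈ B)) v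
    have hp := pow_eq _ hE
    push_cast
    rw [← hp]
    have hw : (if v = neg p ∧ perp v b then (1 / 1000 : ℝ) else 1) * 1000 =
        (((bif eqB v (neg p) && prpB v b then 1 else 1000 : ℕ)) : ℝ) := by
      by_cases h1 : v = neg p ∧ perp v b
      · rw [if_pos h1, (eqB_iff _ _).2 h1.1, (prpB_iff _ _).2 h1.2]
        norm_num
      · rw [if_neg h1]
        have h2 : (eqB v (neg p) && prpB v b) = false := by
          rw [← Bool.not_eq_true, Bool.and_eq_true, eqB_iff, prpB_iff]
          exact h1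
        rw [h2]
        norm_num
    rw [← hw]
    ring
  · rw [if_neg h0, zero_mul]
    have h1 : (eqB v (neg b) || decide (v ∈ J)) = true := by
      rw [Bool.or_eq_true, eqB_iff, decide_eq_true_iff]
      by_contra h
      push Not at h
      exact h0 h
    have h1' : (eqB v (neg b) || (fun d => decide (d ∈ J)) v) = true := h1
    rw [h1', cond_true, Nat.cast_zero]

end Pool.Agent.P8H98.DF.FIN

namespace Pool.Agent.P8H98.DF

open Pool.Agent.P8H98.DF.FIN

theorem fin_proof : S_FIN := by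
  intro p b J B h1 h2 h3 h4
  have hm := main_nat p b (fun d => decide (d ∈ J)) (fun d => decide (d ∈ B)) h1
    (decide_eq_false h2) (decide_eq_false h3) (decide_eq_false h4)
  have hm' : (4 : ℝ) * ((tmv p b (fun d => decide (d ∈ J)) (decide (.xp ∈ B)) .xp : ℝ) +
      tmv p b (fun d => decide (d ∈ J)) (decide (.xm ∈ B)) .xm +
      tmv p b (fun d => decide (d ∈ J)) (decide (.yp ∈ B)) .yp +
      tmv p b (fun d => decide (d ∈ J)) (decide (.ym ∈ B)) .ym +
      tmv p b (fun d => decide (d ∈ J)) (decide (.zp ∈ B)) .zp +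
      tmv p b (fun d => decide (d ∈ J)) (decide (.zm ∈ B)) .zm +
      tmv p b (fun d => decide (d ∈ J)) (decide (.tp ∈ B)) .tp +
      tmv p b (fun d => decide (d ∈ J)) (decide (.tm ∈ B)) .tm) ≤
      21 * (HN p b (decide (neg p ∈ J)) (cnt (fun d => decide (d ∈ B) && prpB d b)) : ℝ) *
        (26 ^ 6 * 25 ^ 28 * 1000) := by
    rw [← DD_eq]
    exact_mod_cast hm
  have c3 : (B.filter (fun j => perp j b)).card =
      cnt (fun d => decide (d ∈ B) && prpB d b) := card_cnt _ _ (by
    intro d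
    rw [Finset.mem_filter, Bool.and_eq_true, prpB_iff, decide_eq_true_iff])
  rw [HN_eq p b (neg p ∈ J) (decide (neg p ∈ J)) (by rw [decide_eq_true_iff]), c3,
    Finset.sum_filter, sumD]
  simp only [← tm_eq] at hm'
  have hpos : (0 : ℝ) < 26 ^ 6 * 25 ^ 28 * 1000 := by positivity
  rw [← mul_le_mul_iff_left₀ hpos]
  linarith

end Pool.Agent.P8H98.DF
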