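import Pool.Agent.P8H98.DF.Stm

/-!
# FIN: the finite inequality, kernel computation
-/

set_option autoImplicit false

namespace Pool.Agent.P8H98.DF.FIN

open Pool.Agent.P8H98.DF

/-- index -/
def idx : Dir → ℕ
  | .xp => 0
  | .xm => 1
  | .yp => 2
  | .ym => 3
  | .zp => 4
  | .zm => 5
  | .tp => 6
  | .tm => 7

def axn : Dir → ℕ
  | .xp => 0
  | .xm => 0
  | .yp => 1
  | .ym => 1
  | .zp => 2
  | .zm => 2
  | .tp => 3
  | .tm => 3

def eqB (x y : Dir) : Bool := Nat.beq (idx x) (idx y)
def prpB (x y : Dir) : Bool := !(Nat.beq (axn x) (axn y))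

def bn : Bool → ℕ
  | true => 1
  | false => 0

def cnt (f : Dir → Bool) : ℕ :=
  bn (f .xp) + bn (f .xm) + bn (f .yp) + bn (f .ym) + bn (f .zp) + bn (f .zm) +
    bn (f .tp) + bn (f .tm)

def sm (f : Dir → ℕ) : ℕ :=
  f .xp + f .xm + f .yp + f .ym + f .zp + f .zm + f .tp + f .tm

def HN (p b : Dir) (u : Bool) (k : ℕ) : ℕ :=
  bif eqB p b then 926 + 19 * k else bif u then 891 + 17 * k else 784 + 13 * k

def dN (p b : Dir) (u : Bool) : ℕ := bif eqB p b then 19 else bif u then 17 else 13

/-- exponent plus six -/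
def EE (p b : Dir) (j : Dir → Bool) (x : Bool) (v : Dir) : ℕ :=
  2 * cnt j + cnt (fun d => j d && (prpB d b && !(eqB d (neg p)))) +
    (bif prpB v b then (bif x then 1 else 2) else 0) + cnt (fun d => j d && prpB d v)

def tmv (p b : Dir) (j : Dir → Bool) (x : Bool) (v : Dir) : ℕ :=
  bif eqB v (neg b) || j v then 0 else
    26 ^ (EE p b j x v) * 25 ^ (34 - EE p b j x v) *
      (bif eqB v (neg p) && prpB v b then 1 else 1000) *
      HN b v (x || eqB v (neg p)) (cnt (fun d => j d && prpB d v))

/-- the common denominator -/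
def DD : ℕ := 26 ^ 6 * 25 ^ 28 * 1000

def exc (p b : Dir) (j : Dir → Bool) (v : Dir) : ℕ :=
  bif prpB v b && !(eqB v (neg p)) then
    4 * tmv p b j true v - (4 * tmv p b j false v + 21 * dN p b (j (neg p)) * DD) else 0

def mk8 (a b c d e f g h : Bool) : Dir → Bool
  | .xp => a
  | .xm => b
  | .yp => c
  | .ym => d
  | .zp => e
  | .zm => f
  | .tp => g
  | .tm => h

def chk (p b : Dir) (j : Dir → Bool) : Bool :=
  Nat.ble (sm (fun v => 4 * tmv p b j false v + exc p b j v)) (21 * HN p b (j (neg p)) 0 * DD)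

def allB (f : Bool → Bool) : Bool := f true && f false

def allD (f : Dir → Bool) : Bool :=
  f .xp && f .xm && f .yp && f .ym && f .zp && f .zm && f .tp && f .tm

def all8 (f : (Dir → Bool) → Bool) : Bool :=
  allB fun a => allB fun b => allB fun c => allB fun d => allB fun e => allB fun g =>
    allB fun h => allB fun i => f (mk8 a b c d e g h i)

def chkp (p b : Dir) : Bool :=
  eqB p (neg b) || all8 fun j => j (neg b) || chk p b j

set_option maxRecDepth 100000 in
theorem chk_all : (allD fun p => allD fun b => chkp p b) = true := by decide +kernel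

end Pool.Agent.P8H98.DF.FIN
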