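import Pool.Agent.P8H98.DF.FinA

/-!
# FIN: the finite inequality
-/

set_option autoImplicit false

namespace Pool.Agent.P8H98.DF.FIN

open Pool.Agent.P8H98.DF

theorem allB_iff {f : Bool → Bool} : allB f = true ↔ ∀ x, f x = true := by
  unfold allB
  rw [Bool.and_eq_true]
  constructor
  · rintro ⟨h1, h2⟩ x
    cases x
    · exact h2
    · exact h1
  · intro h
    exact ⟨h _, h _⟩

theorem allD_spec {f : Dir → Bool} (h : allD f = true) (x : Dir) : f x = true := by
  unfold allD at h
  simp only [Bool.and_eq_true] at h
  cases x <;> tauto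

theorem mk8_eq (f : Dir → Bool) :
    mk8 (f .xp) (f .xm) (f .yp) (f .ym) (f .zp) (f .zm) (f .tp) (f .tm) = f := by
  funext d
  cases d <;> rfl

theorem all8_spec {f : (Dir → Bool) → Bool} (h : all8 f = true) (g : Dir → Bool) : f g = true := by
  unfold all8 at h
  have h1 := allB_iff.1 h (g .xp)
  have h2 := allB_iff.1 h1 (g .xm)
  have h3 := allB_iff.1 h2 (g .yp)
  have h4 := allB_iff.1 h3 (g .ym)
  have h5 := allB_iff.1 h4 (g .zp)
  have h6 := allB_iff.1 h5 (g .zm)
  have h7 := allB_iff.1 h6 (g .tp)
  have h8 := allB_iff.1 h7 (g .tm)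
  rwa [mk8_eq] at h8

theorem eqB_iff (x y : Dir) : eqB x y = true ↔ x = y := by
  revert x y
  decide

theorem prpB_iff (x y : Dir) : prpB x y = true ↔ perp x y := by
  revert x y
  decide

theorem eqB_false (x y : Dir) : eqB x y = false ↔ x ≠ y := by
  rw [← Bool.not_eq_true, eqB_iff]

theorem prpB_false (x y : Dir) : prpB x y = false ↔ ¬ perp x y := by
  rw [← Bool.not_eq_true, prpB_iff]

theorem not_prp : ∀ v b : Dir, prpB v b = false → v = b ∨ v = neg b := by decide

theorem base_nat (p b : Dir) (j : Dir → Bool) (h1 : p ≠ neg b) (h2 : j (neg b) = false) :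
    sm (fun v => 4 * tmv p b j false v + exc p b j v) ≤ 21 * HN p b (j (neg p)) 0 * DD := by
  have h := allD_spec (allD_spec chk_all p) b
  unfold chkp at h
  rw [(eqB_false p (neg b)).2 h1, Bool.false_or] at h
  have h5 := all8_spec h j
  rw [h2, Bool.false_or] at h5
  unfold chk at h5
  exact Nat.le_of_ble_eq_true h5

/-- one direction -/
theorem one_nat (p b : Dir) (j : Dir → Bool) (v : Dir) (x : Bool) (h3 : v = b → x = false)
    (h4 : v = neg p → x = false) :
    4 * tmv p b j x v ≤ (4 * tmv p b j false v + exc p b j v) +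
      bn (x && prpB v b) * (21 * dN p b (j (neg p)) * DD) := by
  cases x with
  | false =>
    omega
  | true =>
    have hb : v ≠ b := fun h => by simpa using h3 h
    have hp : v ≠ neg p := fun h => by simpa using h4 h
    by_cases hq : prpB v b = true
    · have e : exc p b j v =
          4 * tmv p b j true v - (4 * tmv p b j false v + 21 * dN p b (j (neg p)) * DD) := by
        unfold exc
        rw [hq, (eqB_false v (neg p)).2 hp, Bool.not_false, Bool.and_true, cond_true]
      rw [e, hq]
      simp only [Bool.and_self, bn, one_mul]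
      omega
    · rw [Bool.not_eq_true] at hq
      rcases not_prp v b hq with h | h
      · exact absurd h hb
      · have e : tmv p b j true v = 0 := by
          unfold tmv
          rw [(eqB_iff v (neg b)).2 h]
          rfl
        rw [e]
        omega

theorem HN_lin (p b : Dir) (u : Bool) (k : ℕ) : HN p b u k = HN p b u 0 + dN p b u * k := by
  unfold HN dN
  cases eqB p b <;> cases u <;> simp

theorem sm_le {f g : Dir → ℕ} (h : ∀ v, f v ≤ g v) : sm f ≤ sm g := by
  unfold sm
  have h1 := h .xp
  have h2 := h .xm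
  have h3 := h .yp
  have h4 := h .ym
  have h5 := h .zp
  have h6 := h .zm
  have h7 := h .tp
  have h8 := h .tm
  omega

theorem sm_add (f g : Dir → ℕ) : sm (fun v => f v + g v) = sm f + sm g := by
  unfold sm
  ring

theorem sm_bn (f : Dir → Bool) (c : ℕ) : sm (fun v => bn (f v) * c) = cnt f * c := by
  unfold sm cnt
  ring

theorem sm_mul (f : Dir → ℕ) (c : ℕ) : sm (fun v => c * f v) = c * sm f := by
  unfold sm
  ring

/-- the finite inequality, in integers -/
theorem main_nat (p b : Dir) (j bb : Dir → Bool) (h1 : p ≠ neg b) (h2 : j (neg b) = false)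
    (h3 : bb b = false) (h4 : bb (neg p) = false) :
    4 * sm (fun v => tmv p b j (bb v) v) ≤
      21 * HN p b (j (neg p)) (cnt (fun d => bb d && prpB d b)) * DD := by
  have h := base_nat p b j h1 h2
  have h5 : sm (fun v => 4 * tmv p b j (bb v) v) ≤
      sm (fun v => (4 * tmv p b j false v + exc p b j v) +
        bn (bb v && prpB v b) * (21 * dN p b (j (neg p)) * DD)) :=
    sm_le (fun v => one_nat p b j v (bb v) (fun e => by rw [e]; exact h3)
      (fun e => by rw [e]; exact h4))
  rw [sm_mul, sm_add, sm_bn] at h5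
  rw [HN_lin]
  calc 4 * sm (fun v => tmv p b j (bb v) v)
      ≤ sm (fun v => 4 * tmv p b j false v + exc p b j v) +
        cnt (fun v => bb v && prpB v b) * (21 * dN p b (j (neg p)) * DD) := h5
    _ ≤ 21 * HN p b (j (neg p)) 0 * DD +
        cnt (fun v => bb v && prpB v b) * (21 * dN p b (j (neg p)) * DD) :=
        Nat.add_le_add_right h _
    _ = _ := by ring

theorem sumD {M : Type} [AddCommMonoid M] (f : Dir → M) :
    ∑ d : Dir, f d = f .xp + f .xm + f .yp + f .ym + f .zp + f .zm + f .tp + f .tm := by
  have h : (Finset.univ : Finset Dir) = {.xp, .xm, .yp, .ym, .zp, .zm, .tp, .tm} := rfl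
  rw [h]
  rw [Finset.sum_insert (by decide), Finset.sum_insert (by decide), Finset.sum_insert (by decide),
    Finset.sum_insert (by decide), Finset.sum_insert (by decide), Finset.sum_insert (by decide),
    Finset.sum_insert (by decide), Finset.sum_singleton]
  simp only [add_assoc]

theorem card_cnt (f : Dir → Bool) (S : Finset Dir) (h : ∀ d, d ∈ S ↔ f d = true) :
    S.card = cnt f := by
  have h1 : S = (Finset.univ : Finset Dir).filter (fun d => f d = true) := by
    ext d
    rw [h, Finset.mem_filter]
    simp
  rw [h1, Finset.card_filter, sumD]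
  unfold cnt
  have h2 : ∀ x : Bool, (if x = true then 1 else 0) = bn x := by
    intro x
    cases x <;> rfl
  simp only [h2]

theorem cnt_le (f : Dir → Bool) : cnt f ≤ 8 := by
  unfold cnt
  have : ∀ x, bn x ≤ 1 := by intro x; cases x <;> simp [bn]
  have h1 := this (f .xp)
  have h2 := this (f .xm)
  have h3 := this (f .yp)
  have h4 := this (f .ym)
  have h5 := this (f .zp)
  have h6 := this (f .zm)
  have h7 := this (f .tp)
  have h8 := this (f .tm)
  omega

theorem HN_eq (p b : Dir) (P : Prop) (u : Bool) (h : u = true ↔ P) (k : ℕ) :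
    Hs p b P k = (HN p b u k : ℝ) := by
  unfold HN Hs
  by_cases h1 : p = b
  · rw [if_pos h1, (eqB_iff p b).2 h1]
    simp
  · rw [if_neg h1, (eqB_false p b).2 h1]
    by_cases h2 : P
    · rw [if_pos h2, h.2 h2]
      simp
    · have h3 : u = false := by
        rw [← Bool.not_eq_true, h]
        exact h2
      rw [if_neg h2, h3]
      simp

theorem EE_eq (p b : Dir) (J B : Finset Dir) (v : Dir) :
    e0 p b J B v =
      (EE p b (fun d => decide (d ∈ J)) (decide (v ∈ B)) v : ℤ) - 6 := by
  unfold e0 EE
  have c1 : J.card = cnt (fun d => decide (d ∈ J)) := card_cnt _ _ (by intro d; simp)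
  have c2 : (J.filter (fun j => perp j b ∧ j ≠ neg p)).card =
      cnt (fun d => decide (d ∈ J) && (prpB d b && !(eqB d (neg p)))) := card_cnt _ _ (by
    intro d
    rw [Finset.mem_filter, Bool.and_eq_true, Bool.and_eq_true, Bool.not_eq_true', prpB_iff,
      eqB_false, decide_eq_true_iff])
  have c3 : (J.filter (fun j => perp j v)).card =
      cnt (fun d => decide (d ∈ J) && prpB d v) := card_cnt _ _ (by
    intro d
    rw [Finset.mem_filter, Bool.and_eq_true, prpB_iff, decide_eq_true_iff])
  rw [c1, c2, c3]
  by_cases h1 : perp v b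
  · rw [if_pos h1, (prpB_iff v b).2 h1]
    by_cases h2 : v ∈ B
    · rw [if_pos ⟨h1, h2⟩]
      simp only [h2, decide_true, cond_true]
      push_cast
      ring
    · rw [if_neg (fun h => h2 h.2)]
      simp only [h2, decide_false, cond_true, cond_false]
      push_cast
      ring
  · rw [if_neg h1, (prpB_false v b).2 h1, if_neg (fun h => h1 h.1)]
    simp only [cond_false]
    push_cast
    ring

end Pool.Agent.P8H98.DF.FIN
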