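import Pool.Agent.P8H98.DF.Sys
import Pool.Agent.N929.EG.MomT
import Pool.Agent.N394.EG.Law

/-!
# Self-avoiding walks on `ℤ⁴`: regularity to all orders (project DF)
-/

set_option autoImplicit false
set_option linter.unusedVariables false

namespace Pool.Agent.P8H98.DF

open Finset Filter Topology
open scoped Classical
open Pool.Agent.N929.EG

noncomputable section

theorem rep_inv {α σ : Type} {Y : TS α σ} {F : α → ℝ} (hF : ∀ w, |F w| ≤ 1)
    (hI : ∀ n, ∀ w ∈ Y.K n, ∀ q ∈ Y.S w, F (Y.ins w q) = F w) :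
    ∀ L : Finset σ, Fam Y L → ∀ st fl, Fill Y L st fl → ∀ w, Em Y L w →
      Rp (Sl Y L w) (fun U => F (fl w U)) 1 := by
  intro L _ st fl hfl w hw
  obtain ⟨v, hv, hv'⟩ := Rp.const (E := Sl Y L w) (F w)
  exact ⟨v, hv.trans (hF w), fun U hU => (fl_inv hfl hI hw U hU).trans (hv' U hU)⟩

/-- the rate -/
def rt (n : ℕ) : ℝ := (n : ℝ) ^ (-(1 / 4) : ℝ) * Real.sqrt (Real.log n)

variable (hcc : S_CC) (hphi : S_PHI) (hupb : S_UPB) (hend : S_END)
variable {Y : TS (List Z4) (List Z4 × List Z4)} (H : Sys4 Y)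

include hcc hphi hupb H in
/-- **Numbers of walks** -/
theorem count4 (r : ℕ) (hr : 1 ≤ r) : ∃ C : ℝ, 0 < C ∧ ∀ n : ℕ, 3 ≤ n →
    |∑ i ∈ range (r + 1), (-1 : ℝ) ^ i * (r.choose i : ℝ) *
      Real.log (((SS (n + 2 * i)).card : ℝ) / μ4 ^ (n + 2 * i))| ≤ C * rt n ^ r := by
  obtain ⟨K₁, hK₁, G⟩ := H.gr
  obtain ⟨C, hC, h⟩ := cntT Y G (low4 hcc hupb H _) r hr
  have hK0 : 0 < K₁ := by linarith
  refine ⟨C * (Real.sqrt K₁) ^ r, by positivity, fun n hn => ?_⟩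
  have h1 := h n (by omega)
  rw [H.s] at h1
  simp only [card_Y H.K] at h1
  refine h1.trans ?_
  rw [mul_assoc, ← mul_pow, (hphi K₁ hK₁).2 n (by omega)]
  exact le_rfl

include hcc hphi hupb hend H in
/-- **Moments** -/
theorem moment4 (p : ℝ) : (∀ n : ℕ, 2 ≤ n → 0 < mean n (fun x => norm2 x ^ p)) ∧
    ∀ r : ℕ, 1 ≤ r → ∃ C : ℝ, 0 < C ∧ ∀ n : ℕ, 3 ≤ n →
    |∑ i ∈ range (r + 1), (-1 : ℝ) ^ i * (r.choose i : ℝ) *
      Real.log (mean (n + 2 * i) (fun x => norm2 x ^ p))| ≤ C * rt n ^ r := by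
  obtain ⟨K₁, hK₁, G⟩ := H.gr
  obtain ⟨e1, e2, e3, e0, -⟩ := hend
  have hK0 : 0 < K₁ := by linarith
  obtain ⟨hp, h⟩ := momT Y G (low4 hcc hupb H _) (fun w => norm2 (E (e4 w))) 1 le_rfl
    (fun n w hw => by
      obtain ⟨u, hu, rfl⟩ := (H.K n w).1 hw
      obtain ⟨hl, hsaw⟩ := mem_SS.1 hu
      rw [e4_path]
      rcases Nat.eq_zero_or_pos n with rfl | hn
      · left
        rw [List.length_eq_zero_iff] at hl
        subst hl
        refine ⟨by norm_num, ?_⟩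
        rw [pos]
        exact e0
      · right
        refine ⟨?_, ?_⟩
        · rw [div_one]
          exact e2 u hsaw (by omega)
        · have := e3 u
          rw [hl] at this
          linarith)
    (fun n w hw q hq => by simp only [H.e4 n w hw q hq]) p
  have em : ∀ n, mean n (fun x => norm2 x ^ p) =
      (∑ w ∈ Y.K n, norm2 (E (e4 w)) ^ p) / ((Y.K n).card : ℝ) := by
    intro n
    rw [e1, sum_Y H.K, card_Y H.K]
    simp only [e4_path]
  refine ⟨fun n hn => ?_, fun r hr => ?_⟩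
  · rw [em]
    exact div_pos (hp n hn) (card_posT Y G (low4 hcc hupb H _) hn)
  obtain ⟨C, hC, h'⟩ := h r hr
  refine ⟨C * (Real.sqrt K₁) ^ r, by positivity, fun n hn => ?_⟩
  have h1 := h' n (by omega)
  rw [H.s] at h1
  simp only [em]
  refine h1.trans ?_
  rw [mul_assoc, ← mul_pow, (hphi K₁ hK₁).2 n (by omega)]
  exact le_rfl

include hcc hphi hupb hend H in
/-- **The law of the end point** -/
theorem end4 (r : ℕ) (hr : 1 ≤ r) : ∃ C : ℝ, 0 < C ∧ ∀ n : ℕ, 3 ≤ n →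
    ∀ S : Set (Fin 4 → ℤ), |∑ i ∈ range (r + 1), (-1 : ℝ) ^ i * (r.choose i : ℝ) *
      mean (n + 2 * i) (S.indicator 1)| ≤ C * rt n ^ r := by
  obtain ⟨K₁, hK₁, G⟩ := H.gr
  obtain ⟨e1, e2, e3, e0, -⟩ := hend
  have hK0 : 0 < K₁ := by linarith
  obtain ⟨C, hC, h⟩ := Pool.Agent.N394.EG.law _ _ Y μ4 _ G (low4 hcc hupb H _) r 1 (by norm_num)
  refine ⟨C * (Real.sqrt K₁) ^ r, by positivity, fun n hn S => ?_⟩
  have hF : ∀ w : List Z4, |S.indicator (1 : (Fin 4 → ℤ) → ℝ) (E (e4 w))| ≤ 1 := by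
    intro w
    unfold Set.indicator
    split_ifs <;> simp
  have hI : ∀ n, ∀ w ∈ Y.K n, ∀ q ∈ Y.S w, S.indicator (1 : (Fin 4 → ℤ) → ℝ) (E (e4 (Y.ins w q))) =
      S.indicator (1 : (Fin 4 → ℤ) → ℝ) (E (e4 w)) := by
    intro n w hw q hq
    rw [H.e4 n w hw q hq]
  have h1 := h n (by omega) (fun w => S.indicator (1 : (Fin 4 → ℤ) → ℝ) (E (e4 w))) hF
    (rep_inv hF hI)
  have em : ∀ n, mean n (S.indicator (1 : (Fin 4 → ℤ) → ℝ)) =
      (∑ w ∈ Y.K n, S.indicator (1 : (Fin 4 → ℤ) → ℝ) (E (e4 w))) / ((Y.K n).card : ℝ) := by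
    intro n
    rw [e1, sum_Y H.K, card_Y H.K]
    simp only [e4_path]
  rw [H.s] at h1
  simp only [em]
  refine h1.trans ?_
  rw [mul_assoc, ← mul_pow, (hphi K₁ hK₁).2 n (by omega)]
  exact le_rfl

end

end Pool.Agent.P8H98.DF
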