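import Pool.Agent.P8H98.DF.L.K9

/-!
# Most lengths: forms with general normalisations (project DF)
-/

set_option autoImplicit false
set_option linter.unusedVariables false

namespace Pool.Agent.P8H98.DF.Frm

open Filter Topology Finset
open scoped Classical
open Pool.Agent.P8H98.DF.L.K6 Pool.Agent.P8H98.DF.L.K7

lemma two_sqrt' (x : ℝ) : 2 * √x = √(4 * x) := by
  rw [Real.sqrt_mul (by norm_num), show (4 : ℝ) = 2 ^ 2 by norm_num, Real.sqrt_sq (by norm_num)]

lemma reg_len {l : ℕ → ℝ} {A₁ : ℝ} (h : ∀ n : ℕ, 1 ≤ n → |l (n + 1) - l n| ≤ A₁ / n) (a b : ℕ)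
    (ha : 1 ≤ a) (hab : a ≤ b) : |l b - l a| ≤ A₁ * ((b : ℝ) - a) / a := by
  have hA : 0 ≤ A₁ := by
    have h1 := h 1 le_rfl
    have h2 := (abs_nonneg _).trans h1
    simpa using h2
  have ha0 : (0 : ℝ) < a := by exact_mod_cast ha
  induction b, hab using Nat.le_induction with
  | base => simp
  | succ b hab ih =>
    have hb0 : (0 : ℝ) < b := by exact_mod_cast (by omega : 0 < b)
    have h1 := h b (by omega)
    have h2 : A₁ / (b : ℝ) ≤ A₁ / a := by
      apply div_le_div_of_nonneg_left hA ha0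
      exact_mod_cast hab
    have h3 := abs_sub_le (l (b + 1)) (l b) (l a)
    push_cast
    calc |l (b + 1) - l a| ≤ A₁ / a + A₁ * ((b : ℝ) - a) / a := by linarith
      _ = A₁ * ((b : ℝ) + 1 - a) / a := by ring

lemma reg_g {l : ℕ → ℝ} {A₁ : ℝ} (h : ∀ n : ℕ, 1 ≤ n → |l (n + 1) - l n| ≤ A₁ / n) (B : ℝ)
    (s : ℕ) : Reg (fun k => l (2 * k + s) + B) := by
  have hA : 0 ≤ A₁ := by
    have h1 := h 1 le_rfl
    have h2 := (abs_nonneg _).trans h1
    simpa using h2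
  refine ⟨A₁, hA, fun m n hm hmn => ?_⟩
  have h1 := reg_len h (2 * m + s) (2 * n + s) (by omega) (by omega)
  have hm0 : (0 : ℝ) < m := by exact_mod_cast hm
  have hmn' : (m : ℝ) ≤ n := by exact_mod_cast hmn
  have e : l (2 * n + s) + B - (l (2 * m + s) + B) = l (2 * n + s) - l (2 * m + s) := by ring
  rw [e]
  refine h1.trans ?_
  push_cast
  rw [div_le_div_iff₀ (by positivity) hm0]
  have hs : (0 : ℝ) ≤ s := Nat.cast_nonneg s
  have h2 : 0 ≤ A₁ * ((n : ℝ) - m) := mul_nonneg hA (by linarith)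
  nlinarith

/-- **forms** -/
theorem form {M g : ℕ → ℝ} (hM : ∀ᶠ n : ℕ in atTop, 0 < M n) (hg : ∀ n, 0 < g n) {A₁ : ℝ}
    (hg1 : ∀ n : ℕ, 1 ≤ n → |Real.log (g (n + 1)) - Real.log (g n)| ≤ A₁ / n) {s : ℕ} (hs : s ≤ 1)
    (h : Bv (fun k => Real.log (M (2 * k + s)))) {S : Set ℕ} (hpar : ∀ m ∈ S, m % 2 = s)
    (hS : ∀ δ : ℝ, 0 < δ → ∀ᶠ n : ℕ in atTop, ∃ m ∈ S, n ≤ m ∧ (m : ℝ) ≤ n + δ * √(n : ℝ))
    {B : ℝ} (hB : 0 < B)
    (h1 : Tendsto (fun n : ℕ => M n / g n) (atTop ⊓ 𝓟 S) (𝓝 B)) {ε : ℝ} (hε : 0 < ε) :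
    Rare (fun n => n % 2 = s ∧ ε < |M n / g n - B|) := by
  obtain ⟨δ0, hδ0, hδ⟩ := exp_close hB hε
  have ht : Tendsto (fun k : ℕ => 2 * k + s) atTop atTop :=
    tendsto_atTop_mono (fun k => by simp only [id]; omega) tendsto_id
  have hreg : Reg (fun k => Real.log (g (2 * k + s)) + Real.log B) :=
    reg_g (l := fun n => Real.log (g n)) hg1 (Real.log B) s
  have hm := Bv.sparse h Pool.Agent.R956.K1.sc_one (S := {k | 2 * k + s ∈ S}) (fun δ hδ => by
    filter_upwards [ht.eventually (hS δ hδ), eventually_ge_atTop 1] with k hk hk1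
    obtain ⟨m, hmS, hm2, hm3⟩ := hk
    have hmp := hpar m hmS
    obtain ⟨j, hj⟩ : ∃ j, m = 2 * j + s := ⟨m / 2, by omega⟩
    subst hj
    refine ⟨j, hmS, by omega, ?_⟩
    have h5 : √((2 * k + s : ℕ) : ℝ) ≤ 2 * √(k : ℝ) := by
      rw [two_sqrt']
      refine Real.sqrt_le_sqrt ?_
      exact_mod_cast (show 2 * k + s ≤ 4 * k by omega)
    have h6 := mul_le_mul_of_nonneg_left h5 hδ.le
    rw [mul_one]
    push_cast at hm3 h6 ⊢
    linarith) hreg (fun τ hτ => by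
    have h2 : Tendsto (fun n : ℕ => Real.log (M n / g n)) (atTop ⊓ 𝓟 S)
      (𝓝 (Real.log B)) := (Real.continuousAt_log hB.ne').tendsto.comp h1
    have h3 := Metric.tendsto_nhds.mp h2 τ hτ
    rw [eventually_inf_principal] at h3
    filter_upwards [ht.eventually (h3.and hM), eventually_ge_atTop 1] with k h4 hk1 hkS
    obtain ⟨h5, h6⟩ := h4
    have h7 := h5 hkS
    rw [Real.dist_eq, Real.log_div h6.ne' (hg _).ne'] at h7
    rw [mul_one, show Real.log (M (2 * k + s)) - (Real.log (g (2 * k + s)) + Real.log B) =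
      Real.log (M (2 * k + s)) - Real.log (g (2 * k + s)) - Real.log B by ring]
    exact h7.le) (ε := δ0) hδ0
  refine (Most.rare hm hs).mono ?_
  filter_upwards [hM, eventually_ge_atTop 1] with n hn hn1
  rintro ⟨h2, h3⟩
  refine ⟨h2, fun h4 => ?_⟩
  rw [mul_one, show 2 * (n / 2) + s = n by omega] at h4
  have h5 := hδ (M n / g n) (div_pos hn (hg n)) (by
    rw [Real.log_div hn.ne' (hg n).ne']
    rwa [show Real.log (M n) - Real.log (g n) - Real.log B =
      Real.log (M n) - (Real.log (g n) + Real.log B) by ring])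
  linarith

end Pool.Agent.P8H98.DF.Frm
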