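import Pool.Agent.P8H98.DF.Stm2
import Pool.Agent.R956.K2
import Pool.Agent.Y943.SL.Abs

/-!
# Self-avoiding walks on `ℤ⁴`: most lengths (statements, project DF, second theorem)
-/

set_option autoImplicit false
set_option linter.unusedVariables false

namespace Pool.Agent.P8H98.DF

open Finset Filter Topology
open scoped Classical
open Pool.Agent.N929.EG
open Pool.Agent.Y943.SL (Wk)

noncomputable section

/-- **KES** (150 lines, abstract): Kesten's inequality for invariant weights. Build a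
`TH966.AK.Sys` from `Y` (`n0 = 0`, `C` = maximum of `1`, `Y.d` and the given constant; a move
changes `|S w|`, `|B w|` by at most `Y.d`: this is in `P8H63/DF/Pat.lean`), apply
`TH966.AK.Sys.convexW` of `TH966/AK/Conv.lean` with `M, θ, C'` from `Pat Y μ` (the weight of the bad
objects is at most `C₀ (n+1)^m C' (θ μ)^n ≤ C'' (θ' μ)^n`, `θ' = (1+θ)/2`) and
`θ₁ = (1 + θ')/2`. -/
def S_KES : Prop :=
  ∀ (α σ : Type) (Y : TS α σ) (μ C₀ : ℝ) (m c : ℕ), 1 ≤ μ → Pat Y μ → 0 ≤ C₀ →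
    (∀ n w, w ∈ Y.K n → (Y.S w).card ≤ c * (n + 1)) →
    ∀ f : α → ℝ, (∀ n w, w ∈ Y.K n → 0 ≤ f w ∧ f w ≤ C₀ * ((n : ℝ) + 1) ^ m) →
      (∀ n w q, w ∈ Y.K n → q ∈ Y.S w → f (Y.ins w q) = f w) →
      (∀ n, μ ^ n ≤ ∑ w ∈ Y.K n, f w) →
      ∃ D : ℝ, 0 ≤ D ∧ ∀ᶠ n : ℕ in atTop, (∑ w ∈ Y.K (n + Y.s), f w) ^ 2 ≤
        (∑ w ∈ Y.K n, f w) * (∑ w ∈ Y.K (n + Y.s + Y.s), f w) * (1 + D / n)

/-- the weighted numbers of walks; the weight `max 1 |x|^p` equals `|x|^p` for `x ≠ 0` -/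
def w4 (p : ℝ) (n : ℕ) : ℝ := ∑ u ∈ SS n, (max 1 (norm2 (E (pos u)))) ^ p

/-- the connective constant -/
def mu4 : ℝ := Pool.Agent.H725R2.SB.mu Om4

/-- **WKB** (150 lines): from Kesten's inequality and the ratio limit to the package `Wk` of
`Y943/SL/Abs.lean` (`Kes` is in `TH966/KS/Ana.lean`). Here `c`, `w` are any sequences: `low`,
`kes` (for the two parity classes: `n = 2 k + s`, `D / (2 k + s) ≤ D / k`), `par` from
`w (n+1) ≤ B w n` and `w (n+2) / w n → μ²` (so `w n ≤ 2 μ^(-2) w (n+2) ≤ 2 μ^(-2) B w (n+1)` for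
large `n`; finitely many `n ≥ 1` by enlarging the constant), `sub` from the upper bound. -/
def S_WKB : Prop :=
  ∀ (w : ℕ → ℝ) (μ D B : ℝ) (φ : ℕ → ℝ), 1 ≤ μ → 0 ≤ D → (∀ n, μ ^ n ≤ w n) →
    (∀ᶠ n : ℕ in atTop, w (n + 2) ^ 2 ≤ w n * w (n + 4) * (1 + D / n)) →
    (∀ n, w (n + 1) ≤ B * w n) →
    (∀ᶠ n : ℕ in atTop, w n ≤ μ ^ n * Real.exp (φ n)) →
    Tendsto (fun n : ℕ => φ n / n) atTop (𝓝 0) →
    Tendsto (fun n : ℕ => w (n + 2) / w n) atTop (𝓝 (μ ^ 2)) →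
    Wk w μ

/-- **LEN** (60 lines): the number of moves is at most linear. `q = (U, U')` is determined by a
point of `(path u)` and two directions. -/
def S_LEN : Prop := ∀ (n : ℕ) (u : List Dir), u ∈ SS n → ∀ S : Finset (List Z4 × List Z4),
  (∀ q, q ∈ S ↔ T4 q.1 q.2 ∧ Free q.1 q.2 (path u).reverse) → S.card ≤ 64 * (n + 1)

/-- **STP** (40 lines): one more step; `p ≥ 0`. (Each word of `SS (n+1)` is `v :: u` with
`u ∈ SS n`; `max 1 |x + e| ≤ 2 max 1 |x|`; `norm2_add` as in `P8H63/DF/End.lean`.) -/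
def S_STP : Prop := ∀ (p : ℝ), 0 ≤ p → ∀ n : ℕ, w4 p (n + 1) ≤ 8 * 2 ^ p * w4 p n

/-- **GFM** (250 lines, abstract): forms with general normalisations inside one parity class. `g`
is a normalisation if `g n > 0` and `|log g (n+1) - log g n| ≤ A / n` for `n ≥ 1` (for example
`n (log n)^(1/4)` for `n ≥ 3`, changed for small `n`). Proof: `y k = c (2k+q) / (μ^(2k+q) g (2k+q))`
satisfies the hypotheses `Kc` of `R956/K1.lean` with another `D` (the second differences of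
`log g` are at most `2 A / n`), so `Kc.form`, `Kc.ratio_form` of `R956/K2.lean` apply with exponent
`a = 0`; then divide as in `pair_form` (`R956/M1.lean`) and `joint_form` (`R956/K8.lean`); the
passage from `k` to `n = 2k+q` as in `form_one` (`R956/K3.lean`; do not import K3, M1, K8: they are
heavy, copy the few lemmas). -/
def S_GFM : Prop :=
  ∀ (c w M g h : ℕ → ℝ) (μ A₁ : ℝ), Wk c μ → Wk w μ → (∀ᶠ n : ℕ in atTop, M n = w n / c n) →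
    (∀ n, 0 < g n) → (∀ n, 0 < h n) →
    (∀ n : ℕ, 1 ≤ n → |Real.log (g (n + 1)) - Real.log (g n)| ≤ A₁ / n) →
    (∀ n : ℕ, 1 ≤ n → |Real.log (h (n + 1)) - Real.log (h n)| ≤ A₁ / n) →
    ∀ (q : ℕ) (S : Set ℕ) (A B : ℝ), q ≤ 1 → (∀ m ∈ S, m % 2 = q) →
    (∀ δ : ℝ, 0 < δ → ∀ᶠ n : ℕ in atTop, ∃ m ∈ S, n ≤ m ∧ (m : ℝ) ≤ n + δ * Real.sqrt n) →
    0 < A → 0 < B →
    Tendsto (fun n : ℕ => c n / μ ^ n / h n) (atTop ⊓ 𝓟 S) (𝓝 A) →
    Tendsto (fun n : ℕ => M n / g n) (atTop ⊓ 𝓟 S) (𝓝 B) →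
    Tendsto (fun n : ℕ => c n / μ ^ n / h n) (atTop ⊓ 𝓟 {n | n % 2 = q}) (𝓝 A) ∧
    Tendsto (fun n : ℕ => M n / g n) (atTop ⊓ 𝓟 {n | n % 2 = q}) (𝓝 B) ∧
    Tendsto (fun n : ℕ => (M (n + 2) / M n - 1) * Real.sqrt n)
      (atTop ⊓ 𝓟 {n | n % 2 = q}) (𝓝 0)

/-- the set of the numbers with property `P` has density zero -/
def Rare (P : ℕ → Prop) : Prop :=
  Tendsto (fun N : ℕ => ({n : ℕ | n < N ∧ P n}.ncard : ℝ) / N) atTop (𝓝 0)

/-- **MST** (packaging of `R956/K6, K7, K8, K9`, 1000 lines of copies without new proofs, plus `form`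
with a general normalisation): sequences `M n = w n / c n` at most lengths. The modules
`R956/K3.lean` (its import `V2` is not needed, only `kc`), `K6, K7, K8, K9` are abstract: copy them
with light imports (`R956.K2`) to your namespace, and in `form` (K7) replace `n^b` by `g n`
(`reg_log` by the hypothesis on `g`: `|log g n - log g m| ≤ 3 A₁ (n - m)/m`). -/
def S_MST : Prop :=
  ∀ (c w M : ℕ → ℝ) (μ : ℝ), Wk c μ → Wk w μ → (∀ᶠ n : ℕ in atTop, M n = w n / c n) →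
    (∃ K : ℝ, 0 ≤ K ∧ ∀ᶠ N : ℕ in atTop, ∑ n ∈ Finset.Ico N (2 * N),
      |Real.log (M (n + 4) * M n / M (n + 2) ^ 2)| ≤ K) ∧
    (∃ K : ℝ, 0 < K ∧ ∀ η : ℝ, 0 < η → ∀ᶠ N : ℕ in atTop,
      ({n : ℕ | N ≤ n ∧ n < 2 * N ∧ ∃ j : ℕ, 2 * j ≤ N ∧ K / η * (j : ℝ) ^ 2 / N <
        |Real.log (M (n + 2 * j) / M n) - j * Real.log (M (n + 2) / M n)|}.ncard : ℝ) ≤ η * N) ∧
    (∀ (g : ℕ → ℝ) (A₁ : ℝ), (∀ n, 0 < g n) →
      (∀ n : ℕ, 1 ≤ n → |Real.log (g (n + 1)) - Real.log (g n)| ≤ A₁ / n) →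
      ∀ (q : ℕ) (S : Set ℕ) (B : ℝ), q ≤ 1 → (∀ m ∈ S, m % 2 = q) →
      (∀ δ : ℝ, 0 < δ → ∀ᶠ n : ℕ in atTop, ∃ m ∈ S, n ≤ m ∧ (m : ℝ) ≤ n + δ * Real.sqrt n) →
      0 < B → Tendsto (fun n : ℕ => M n / g n) (atTop ⊓ 𝓟 S) (𝓝 B) →
      ∀ ε : ℝ, 0 < ε → Rare (fun n => n % 2 = q ∧ ε < |M n / g n - B|))

/-- **SMP** (120 lines, elementary): unconditional sampling. If
`|log M (n+2) - log M n| ≤ C n^(-1/4) √(log n)` and the gaps of `S` are `o(n^(1/4) / √(log n))` then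
a form along `S` holds along all lengths of the same parity. -/
def S_SMP : Prop :=
  ∀ (M g : ℕ → ℝ) (C A₁ : ℝ), (∀ n, 2 ≤ n → 0 < M n) →
    (∀ n : ℕ, 3 ≤ n → |Real.log (M (n + 2)) - Real.log (M n)| ≤
      C * ((n : ℝ) ^ (-(1 / 4) : ℝ) * Real.sqrt (Real.log n))) →
    (∀ n, 0 < g n) → (∀ n : ℕ, 1 ≤ n → |Real.log (g (n + 1)) - Real.log (g n)| ≤ A₁ / n) →
    ∀ (q : ℕ) (S : Set ℕ) (B : ℝ), q ≤ 1 → (∀ m ∈ S, m % 2 = q) →
    (∀ δ : ℝ, 0 < δ → ∀ᶠ n : ℕ in atTop, ∃ m ∈ S, n ≤ m ∧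
      (m : ℝ) ≤ n + δ * ((n : ℝ) ^ (1 / 4 : ℝ) / Real.sqrt (Real.log n))) →
    0 < B → Tendsto (fun n : ℕ => M n / g n) (atTop ⊓ 𝓟 S) (𝓝 B) →
    Tendsto (fun n : ℕ => M n / g n) (atTop ⊓ 𝓟 {n | n % 2 = q}) (𝓝 B)

end

end Pool.Agent.P8H98.DF
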