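import Pool.Agent.P8H98.DF.Four
import Pool.Agent.P8H98.DF.Stm3

/-!
# Self-avoiding walks on `ℤ⁴`: the weighted numbers (project DF)
-/

set_option autoImplicit false
set_option linter.unusedVariables false

namespace Pool.Agent.P8H98.DF

open Finset Filter Topology
open scoped Classical
open Pool.Agent.N929.EG
open Pool.Agent.Y943.SL (Wk)

noncomputable section

/-- the weight -/
def fw (p : ℝ) (w : List Z4) : ℝ := (max 1 (norm2 (E (e4 w)))) ^ p

theorem fw_one {p : ℝ} (hp : 0 ≤ p) (w : List Z4) : 1 ≤ fw p w :=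
  Real.one_le_rpow (le_max_left _ _) hp

theorem sum_fw {Y : TS (List Z4) (List Z4 × List Z4)} (H : Sys4 Y) (p : ℝ) (n : ℕ) :
    ∑ w ∈ Y.K n, fw p w = w4 p n := by
  rw [sum_Y H.K]
  unfold fw w4
  simp only [e4_path]

theorem w4_ge {p : ℝ} (hp : 0 ≤ p) (n : ℕ) : ((SS n).card : ℝ) ≤ w4 p n := by
  unfold w4
  calc ((SS n).card : ℝ) = ∑ u ∈ SS n, (1 : ℝ) := by simp
    _ ≤ _ := sum_le_sum fun u _ => Real.one_le_rpow (le_max_left _ _) hp

theorem w4_term (hend : S_END) {p : ℝ} (hp : 0 ≤ p) {m : ℕ} (hm : p ≤ m) {n : ℕ} {u : List Dir}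
    (hu : u ∈ SS n) : (max 1 (norm2 (E (pos u)))) ^ p ≤ ((n : ℝ) + 1) ^ m := by
  have h1 := hend.2.2.1 u
  rw [(mem_SS.1 hu).1] at h1
  have hn : (0 : ℝ) ≤ n := Nat.cast_nonneg n
  have h2 : max 1 (norm2 (E (pos u))) ≤ (n : ℝ) + 1 := max_le (by linarith) (by linarith)
  calc (max 1 (norm2 (E (pos u)))) ^ p ≤ ((n : ℝ) + 1) ^ p :=
        Real.rpow_le_rpow (le_trans zero_le_one (le_max_left _ _)) h2 hp
    _ ≤ ((n : ℝ) + 1) ^ (m : ℝ) := Real.rpow_le_rpow_of_exponent_le (by linarith) hm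
    _ = ((n : ℝ) + 1) ^ m := Real.rpow_natCast _ _

theorem w4_le (hend : S_END) {p : ℝ} (hp : 0 ≤ p) {m : ℕ} (hm : p ≤ m) (n : ℕ) :
    w4 p n ≤ ((n : ℝ) + 1) ^ m * (SS n).card := by
  unfold w4
  calc ∑ u ∈ SS n, (max 1 (norm2 (E (pos u)))) ^ p ≤ ∑ u ∈ SS n, ((n : ℝ) + 1) ^ m :=
        sum_le_sum fun u hu => w4_term hend hp hm hu
    _ = _ := by rw [sum_const, nsmul_eq_mul, mul_comm]

theorem moment_w4 (hend : S_END) (p : ℝ) {n : ℕ} (hn : 1 ≤ n) :
    mean n (fun x => norm2 x ^ p) = w4 p n / ((SS n).card : ℝ) := by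
  rw [hend.1]
  congr 1
  unfold w4
  refine sum_congr rfl fun u hu => ?_
  obtain ⟨hl, hs⟩ := mem_SS.1 hu
  rw [max_eq_right (hend.2.1 u hs (by omega))]

theorem phi_lim {φ : ℕ → ℝ} (h : Phi φ) (K : ℝ) :
    Tendsto (fun n : ℕ => K * Real.sqrt (φ n / n)) atTop (𝓝 0) := by
  have h1 := (Real.continuous_sqrt.tendsto 0).comp h.lim
  rw [Real.sqrt_zero] at h1
  have h2 := h1.const_mul K
  rw [mul_zero] at h2
  exact h2

theorem wk4 (hcc : S_CC) (hupb : S_UPB) (hend : S_END) (hkes : S_KES) (hwkb : S_WKB)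
    (hlen : S_LEN) (hstp : S_STP)
    {Y : TS (List Z4) (List Z4 × List Z4)} (H : Sys4 Y)
    (hS : ∀ w q, q ∈ Y.S w ↔ T4 q.1 q.2 ∧ Free q.1 q.2 w) {p : ℝ} (hp : 0 ≤ p) :
    Wk (w4 p) μ4 := by
  obtain ⟨K₁, hK₁, G⟩ := H.gr
  obtain ⟨m, hm⟩ := exists_nat_ge p
  have hfb : ∀ n w, w ∈ Y.K n → 0 ≤ fw p w ∧ fw p w ≤ 1 * ((n : ℝ) + 1) ^ m := by
    intro n w hw
    refine ⟨by linarith [fw_one hp w], ?_⟩
    obtain ⟨u, hu, rfl⟩ := (H.K n w).1 hw
    rw [one_mul]
    unfold fw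
    rw [e4_path]
    exact w4_term hend hp hm hu
  have hinv : ∀ n w q, w ∈ Y.K n → q ∈ Y.S w → fw p (Y.ins w q) = fw p w := by
    intro n w q hw hq
    unfold fw
    rw [H.e4 n w hw q hq]
  have hlow0 : ∀ n, μ4 ^ n ≤ w4 p n := fun n => by
    refine (hupb.2.1 n).trans ?_
    rw [← hcc n]
    exact w4_ge hp n
  have hlow : ∀ n, μ4 ^ n ≤ ∑ w ∈ Y.K n, fw p w := fun n => by
    rw [sum_fw H]
    exact hlow0 n
  obtain ⟨D, hD, hk⟩ := hkes _ _ Y μ4 1 m 64 G.one G.pat zero_le_one (by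
    intro n w hw
    obtain ⟨u, hu, rfl⟩ := (H.K n w).1 hw
    exact hlen n u hu _ (fun q => hS _ q)) (fw p) hfb hinv hlow
  simp only [sum_fw H, H.s] at hk
  have hpos : ∀ n, 0 < w4 p n := fun n =>
    lt_of_lt_of_le (pow_pos (by linarith [G.one]) n) (hlow0 n)
  have hμ0 : 0 < μ4 := by linarith [G.one]
  -- the ratio limit
  have hrat : Tendsto (fun n : ℕ => w4 p (n + 2) / w4 p n) atTop (𝓝 (μ4 ^ 2)) := by
    obtain ⟨C, hC, h⟩ := s_inv _ _ Y μ4 _ G (fun n => 2 ≤ n) (fw p) 1 m zero_le_one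
      (fun n hn => hn) (fun n hn => by omega) (fun n w hw => hfb n w hw)
      (fun n w hw q hq => hinv n w q hw hq)
      ⟨0, le_rfl, fun n _ => by rw [zero_mul, Real.exp_zero, one_mul]; exact hlow n⟩ 1 le_rfl
    have h1 : Tendsto (fun n : ℕ => Real.log (w4 p (n + 2) / μ4 ^ (n + 2)) -
        Real.log (w4 p n / μ4 ^ n)) atTop (𝓝 0) := by
      refine squeeze_zero_norm' ?_ (phi_lim G.phi C)
      filter_upwards [eventually_ge_atTop 2] with n hn
      have h2 := h n hn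
      rw [sum_range_succ, sum_range_one, H.s] at h2
      simp only [sum_fw H, pow_zero, pow_one, Nat.choose_zero_right, Nat.choose_self,
        Nat.cast_one, mul_one, one_mul, mul_zero, add_zero, neg_mul] at h2
      rw [Real.norm_eq_abs, abs_sub_comm]
      have e : Real.log (w4 p n / μ4 ^ n) - Real.log (w4 p (n + 2) / μ4 ^ (n + 2)) =
          Real.log (w4 p n / μ4 ^ n) + -Real.log (w4 p (n + 2) / μ4 ^ (n + 2)) := by ring
      rw [e]
      exact h2
    have h2 := ((Real.continuous_exp.tendsto 0).comp h1).const_mul (μ4 ^ 2)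
    rw [Real.exp_zero, mul_one] at h2
    refine h2.congr fun n => ?_
    have q1 := hpos n
    have q2 := hpos (n + 2)
    simp only [Function.comp_apply]
    rw [Real.exp_sub, Real.exp_log (by positivity), Real.exp_log (by positivity), pow_add]
    field_simp
  -- the upper bound
  have hup : ∀ᶠ n : ℕ in atTop, w4 p n ≤ μ4 ^ n * Real.exp ((2 * 1 + 2 * m + 1) *
      (K₁ * (Real.sqrt n * Real.log n))) := by
    filter_upwards [eventually_ge_atTop 2] with n hn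
    have h1 := w4_le hend hp hm n
    have h2 : (((SS n).card : ℕ) : ℝ) ≤ μ4 ^ n *
        Real.exp (K₁ * (Real.sqrt n * Real.log n)) := by
      rw [← card_Y H.K]
      exact G.up n n hn (by omega)
    have h3 := poly_le G.phi hn (C₀ := 1) zero_le_one m
    rw [one_mul] at h3
    calc w4 p n ≤ ((n : ℝ) + 1) ^ m * (SS n).card := h1
      _ ≤ Real.exp ((2 * 1 + 2 * m) * (K₁ * (Real.sqrt n * Real.log n))) *
          (μ4 ^ n * Real.exp (K₁ * (Real.sqrt n * Real.log n))) := by gcongr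
      _ = _ := by
        rw [mul_left_comm, ← Real.exp_add]
        congr 2
        ring
  refine hwkb (w4 p) μ4 D (8 * 2 ^ p) _ G.one hD hlow0 ?_ (hstp p hp) hup ?_ hrat
  · filter_upwards [hk] with n hn
    exact hn
  · have h1 := G.phi.lim.const_mul (2 * 1 + 2 * (m : ℝ) + 1)
    rw [mul_zero] at h1
    refine h1.congr fun n => ?_
    rw [← mul_div_assoc]

end

end Pool.Agent.P8H98.DF
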