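import Pool.Agent.P8H98.DF.SysS
import Pool.Agent.P8H98.DF.W4
import Pool.Agent.P8H98.DF.Frm
import Pool.Agent.P8H7.DF.Kes
import Pool.Agent.P8H7.DF.Gfm
import Pool.Agent.P8H66.DF.Wkb
import Pool.Agent.P8H66.DF.Smp
import Pool.Agent.P8H42.DF.Len

/-!
# Self-avoiding walks on `ℤ⁴`: most lengths, assembly (project DF, second theorem)

Packages: KES, GFM (helper7), WKB, SMP (helper66), LEN, STP (helper42).
-/

set_option autoImplicit false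
set_option linter.unusedVariables false

namespace Pool.Agent.P8H98.DF

open Finset Filter Topology
open Pool.Agent.N929.EG
open Pool.Agent.Y943.SL (Wk)

noncomputable section

/-- the number of walks -/
def cN (n : ℕ) : ℝ := ({ω | IsSAW n ω}.ncard : ℝ)

/-- the moments -/
def mo (p : ℝ) (n : ℕ) : ℝ := mean n (fun x => norm2 x ^ p)

theorem wkT {p : ℝ} (hp : 0 ≤ p) : Wk (w4 p) μ4 := by
  obtain ⟨Y, H, hS⟩ := sysS
  exact wk4 Pool.Agent.P8H4.DF.cc_thm Pool.Agent.P8H63.DF.upb Pool.Agent.P8H63.DF.end_thm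
    Pool.Agent.P8H7.DF.kes Pool.Agent.P8H66.DF.wkb Pool.Agent.P8H42.DF.len
    Pool.Agent.P8H42.DF.stp H hS hp

theorem cN_eq (n : ℕ) : cN n = w4 0 n := by
  unfold cN w4
  rw [Pool.Agent.P8H63.DF.end_thm.2.2.2.2 n]
  simp

theorem wkc : Wk cN μ4 := by
  have h : cN = w4 0 := funext cN_eq
  rw [h]
  exact wkT le_rfl

theorem cN_lim : Tendsto (fun n : ℕ => cN n ^ (1 / (n : ℝ))) atTop (𝓝 μ4) := by
  have h := wkc
  have hμ := h.hμ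
  have h1 := ((Real.continuous_exp.tendsto 0).comp h.sub).const_mul μ4
  rw [Real.exp_zero, mul_one] at h1
  refine h1.congr' ?_
  filter_upwards [eventually_ge_atTop 1] with n hn
  have hn0 : (0 : ℝ) < n := by exact_mod_cast hn
  have hc := h.cpos n
  simp only [Function.comp_apply]
  rw [Real.log_div hc.ne' (pow_pos hμ n).ne', Real.log_pow, Real.rpow_def_of_pos hc, sub_div,
    Real.exp_sub, mul_div_cancel_left₀ _ hn0.ne', Real.exp_log hμ, mul_one_div]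
  field_simp

theorem mo_eq {p : ℝ} (n : ℕ) (hn : 1 ≤ n) : mo p n = w4 p n / cN n := by
  unfold mo
  rw [moment_w4 Pool.Agent.P8H63.DF.end_thm p hn]
  congr 1
  unfold cN
  rw [Pool.Agent.P8H63.DF.end_thm.2.2.2.2 n]

theorem most4 : ∃ μ : ℝ, 27 / 5 ≤ μ ∧
    Tendsto (fun n : ℕ => cN n ^ (1 / (n : ℝ))) atTop (𝓝 μ) ∧ ∀ p : ℝ, 0 ≤ p →
    (∃ K : ℝ, 0 ≤ K ∧ ∀ᶠ N : ℕ in atTop, ∑ n ∈ Finset.Ico N (2 * N),
      |Real.log (mo p (n + 4) * mo p n / mo p (n + 2) ^ 2)| ≤ K) ∧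
    (∃ K : ℝ, 0 < K ∧ ∀ η : ℝ, 0 < η → ∀ᶠ N : ℕ in atTop,
      ({n : ℕ | N ≤ n ∧ n < 2 * N ∧ ∃ j : ℕ, 2 * j ≤ N ∧ K / η * (j : ℝ) ^ 2 / N <
        |Real.log (mo p (n + 2 * j) / mo p n) -
          j * Real.log (mo p (n + 2) / mo p n)|}.ncard : ℝ) ≤ η * N) ∧
    ∀ (q : ℕ) (g : ℕ → ℝ) (D : ℝ), q ≤ 1 →
      ((∀ n, 0 < g n) ∧ ∃ A : ℝ, ∀ n : ℕ, 1 ≤ n →
        |Real.log (g (n + 1)) - Real.log (g n)| ≤ A / n) → 0 < D → ∀ S : Set ℕ,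
      Tendsto (fun n => mo p n / g n) (atTop ⊓ 𝓟 S) (𝓝 D) →
      (((∀ m ∈ S, m % 2 = q) ∧ ∀ δ : ℝ, 0 < δ → ∀ᶠ n : ℕ in atTop, ∃ m ∈ S, n ≤ m ∧
          (m : ℝ) ≤ n + δ * ((n : ℝ) ^ (1 / 4 : ℝ) / Real.sqrt (Real.log n))) →
        Tendsto (fun n => mo p n / g n) (atTop ⊓ 𝓟 {n | n % 2 = q}) (𝓝 D)) ∧
      (((∀ m ∈ S, m % 2 = q) ∧ ∀ δ : ℝ, 0 < δ → ∀ᶠ n : ℕ in atTop, ∃ m ∈ S, n ≤ m ∧
          (m : ℝ) ≤ n + δ * Real.sqrt n) →
        (∀ ε : ℝ, 0 < ε → Pool.Agent.P8H98.DF.L.K7.Rare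
          (fun n => n % 2 = q ∧ ε < |mo p n / g n - D|)) ∧
        ∀ (h : ℕ → ℝ) (A : ℝ), ((∀ n, 0 < h n) ∧ ∃ A : ℝ, ∀ n : ℕ, 1 ≤ n →
            |Real.log (h (n + 1)) - Real.log (h n)| ≤ A / n) → 0 < A →
          Tendsto (fun n => cN n / μ ^ n / h n) (atTop ⊓ 𝓟 S) (𝓝 A) →
          Tendsto (fun n => cN n / μ ^ n / h n) (atTop ⊓ 𝓟 {n | n % 2 = q}) (𝓝 A) ∧
          Tendsto (fun n => mo p n / g n) (atTop ⊓ 𝓟 {n | n % 2 = q}) (𝓝 D) ∧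
          Tendsto (fun n => (mo p (n + 2) / mo p n - 1) * Real.sqrt n)
            (atTop ⊓ 𝓟 {n | n % 2 = q}) (𝓝 0)) := by
  refine ⟨μ4, Pool.Agent.P8H4.DF.mu_thm, cN_lim, fun p hp => ?_⟩
  have C := wkc
  have W := wkT hp
  have hM : ∀ᶠ n : ℕ in atTop, mo p n = w4 p n / cN n := by
    filter_upwards [eventually_ge_atTop 1] with n hn
    exact mo_eq n hn
  have hpos := Pool.Agent.P8H98.DF.L.K8.pos_q C W hM
  have hbv := fun s hs => Pool.Agent.P8H98.DF.L.K8.bv_q C W hM (s := s) hs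
  refine ⟨Pool.Agent.P8H98.DF.L.K9.tv hpos hbv, Pool.Agent.P8H98.DF.L.K7.lin hpos hbv, ?_⟩
  rintro q g D hq ⟨hg0, A₁, hg⟩ hD S hS
  refine ⟨?_, ?_⟩
  · rintro ⟨hpar, hgap⟩
    obtain ⟨hp2, hr⟩ := momentT p
    obtain ⟨C1, -, hC1⟩ := hr 1 le_rfl
    refine Pool.Agent.P8H66.DF.smp (mo p) g C1 A₁ hp2 (fun n hn => ?_) hg0 hg q S D hq hpar hgap
      hD hS
    have h2 := hC1 n hn
    rw [sum_range_succ, sum_range_one] at h2
    simp only [pow_zero, pow_one, Nat.choose_zero_right, Nat.choose_self,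
        Nat.cast_one, mul_one, one_mul, mul_zero, add_zero, neg_mul] at h2
    have e : Real.log (mo p (n + 2)) - Real.log (mo p n) = -(Real.log (mo p n) +
      -Real.log (mo p (n + 2))) := by ring
    rw [e, abs_neg]
    exact h2
  · rintro ⟨hpar, hgap⟩
    refine ⟨fun ε hε => Frm.form hpos hg0 hg hq (hbv q hq) hpar hgap hD hS hε, ?_⟩
    rintro h A ⟨hh0, A₂, hh⟩ hA hc
    obtain ⟨B, hB1, hB2⟩ : ∃ B : ℝ, A₁ ≤ B ∧ A₂ ≤ B := ⟨max A₁ A₂, le_max_left _ _, le_max_right _ _⟩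
    exact Pool.Agent.P8H7.DF.gfm cN (w4 p) (mo p) g h μ4 B C W hM hg0 hh0
      (fun n hn => (hg n hn).trans (div_le_div_of_nonneg_right hB1 (Nat.cast_nonneg n)))
      (fun n hn => (hh n hn).trans (div_le_div_of_nonneg_right hB2 (Nat.cast_nonneg n)))
      q S A D hq hpar hgap hA hD hc hS

end

end Pool.Agent.P8H98.DF
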