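import Pool.Agent.P8H98.DF.Basic
import Pool.Agent.N929.EG.Lst
import Pool.Agent.H725R2.SB.TA2

/-!
# Self-avoiding walks on `ℤ⁴`: statements of the packages (project DF)

Everything is a four-dimensional copy of files of the starting library, except PAT and MU.
The definitions (same names as in `H246KN.Defs`) are in `P8H98/DF/Defs.lean`, the basic lemmas
(same names as in `H246KN.Basic`) in `P8H98/DF/Basic.lean`.
-/

set_option autoImplicit false

namespace Pool.Agent.P8H98.DF

open Finset Filter Topology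
open scoped Classical
open Pool.Agent.N929.EG

noncomputable section

/-- adjacency on `ℤ⁴` -/
def A4 (p q : Z4) : Prop := ∃ d : Dir, q = p + vec d

/-- one edge of a unit square is replaced by the three others -/
def T4 (U U' : List Z4) : Prop := ∃ (p : Z4) (d e : Dir), perp d e ∧ U = [p, p + vec e] ∧
  U' = [p, p + vec d, p + vec d + vec e, p + vec e]

/-- the steps -/
def Om4 : Finset Z4 := (univ : Finset Dir).image vec

/-- **GEO** (150 lines, adapt `N953/EG/Geo3.lean`): the local rule. Boxes in `ℤ⁴`,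
`g ρ = (2ρ+1)^4`. -/
def S_GEO : Prop := ∃ (X : Geo Z4) (Z : Rul X A4), X.o = 0 ∧ Z.s = 2 ∧ Z.T = T4

/-- **WK** (85 lines, adapt `N558/EG/WK3.lean`): words and lists of vertices. -/
def S_WK : Prop := ∀ (n : ℕ) (w : List Z4), (w.length = n + 1 ∧ Walk 0 A4 w) ↔
  ∃ u ∈ SS n, w = (path u).reverse

/-- **CNT** (130 lines, adapt `N546/EG/CNT3.lean`): the number of moves. -/
def S_CNT : Prop := ∀ (n : ℕ) (u : List Dir), u ∈ SS n → ∀ S : Finset (List Z4 × List Z4),
  ((∀ q, q ∈ S ↔ T4 q.1 q.2 ∧ Free q.1 q.2 (path u).reverse) → fr u ≤ S.card) ∧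
  ((∀ q, q ∈ S ↔ T4 q.1 q.2 ∧ Free q.2 q.1 (path u).reverse) → bu u ≤ S.card)

/-- **FIN** (taken by helper98): the finite inequality. -/
def S_FIN : Prop := ∀ (p b : Dir) (J B : Finset Dir), p ≠ neg b → neg b ∉ J → b ∉ B → neg p ∉ B →
  ∑ v ∈ (univ : Finset Dir).filter (fun v => v ≠ neg b ∧ v ∉ J),
    (26 / 25 : ℝ) ^ (e0 p b J B v) * (if v = neg p ∧ perp v b then (1 / 1000 : ℝ) else 1) *
      Hs b v (v ∈ B ∨ v = neg p) (J.filter (fun j => perp j v)).card ≤
    21 / 4 * Hs p b (neg p ∈ J) (B.filter (fun j => perp j b)).card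

/-- **WALKS** (390 lines, adapt `H246KN/WALKS.lean`: `21/20 → 26/25`, `15/4 → 21/4`,
`460 → 926`, `2760 = 6 * 460 → 7408 = 8 * 926`): the weighted sum over self-avoiding walks. -/
def S_WALKS : Prop := S_FIN → ∀ N : ℕ, 1 ≤ N →
  ∑ w ∈ SS N, (26 / 25 : ℝ) ^ (Gx w) * (1 / 1000 : ℝ) ^ (bu w) * Hx w ≤
    7408 * (21 / 4 : ℝ) ^ (N - 1)

/-- **SAT** (460 lines, adapt `TH966/KO/SAT.lean`: there `SAP w = (4 ≤ w.length ∧ SAW w)`; in
`cardA` and `local_ineq` the number `4 = 2(3-1)` of directions orthogonal to an edge becomes `6`,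
in `e4` (number of directions) `6 → 8`, so `12 → 16`; the total loss is `32 + 6 = 38 ≤ 40`). -/
def S_SAT : Prop := ∀ w : List Dir, 4 ≤ w.length → SAW w → -(40 : ℤ) - fr w ≤ Gx w.tail

/-- **POOR** (200 lines, adapt `TH966/KO/POOR.lean` and `H246KN/POOR.lean`): walks with few free
plaquettes and few bumps are rare. Here `(26/25)^(-1) / 1000 = 1/1040` and
`1040 ≤ (106/105)^1000` (since `(106/105)^100 ≥ 5/2` and `(5/2)^10 ≥ 1040`),
`21/4 * 106/105 = 53/10`; for `n < 4` enlarge `C`. -/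
def S_POOR : Prop := (∀ N : ℕ, 1 ≤ N →
    ∑ w ∈ SS N, (26 / 25 : ℝ) ^ (Gx w) * (1 / 1000 : ℝ) ^ (bu w) * Hx w ≤
      7408 * (21 / 4 : ℝ) ^ (N - 1)) → S_SAT →
  ∃ C : ℝ, ∀ n : ℕ, (((SS n).filter (fun w => 1000 * fr w ≤ n ∧ 1000 * bu w ≤ n)).card : ℝ) ≤
    C * (53 / 10 : ℝ) ^ n

/-- **PAT** (250 lines, abstract): the pattern theorem from a bound for the objects with few
upward AND few downward moves. Adapt `TH966/AK/Sys.lean` (there `poor` = few downward moves;
`down_step`, `down`, `expo`, `pattern`); besides `down` one needs the symmetric `up` (see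
`TH966/KO/UP.lean`: `|B| F^j ≤ |K(n + s j)| (β + C j)^j`). With `C = max 1 Y.d`: a move changes
`|S w|`, `|B w|` by at most `C`, because `S w` and `S (ins w q)` differ only in places in conflict
with `q` (`ins_S`, `ins_BB`, `S_U`, `deg`, `cf_symm`). Objects with `M |S w| ≤ n` and
`M0 |B w| > n`: `j = n / M` removals, factor `4^(-j)` for `M` large. Objects with `M |B w| ≤ n`
and `M0 |S w| > n`: `j = n / M` insertions; the size grows by `s j`, which costs
`((1+τ) μ)^(s j)`, so take `M = M0 k` with `k` so large (depending on `C, s, μ`) that the gain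
per move is `≥ 4 (2 μ)^s`. -/
def S_PAT : Prop :=
  ∀ (α σ : Type) (Y : TS α σ) (μ : ℝ), 1 ≤ μ →
    (∀ τ : ℝ, 0 < τ → ∃ C1 : ℝ, ∀ n : ℕ, ((Y.K n).card : ℝ) ≤ C1 * ((1 + τ) * μ) ^ n) →
    (∃ (M0 : ℕ) (ρ C0 : ℝ), 1 ≤ M0 ∧ 0 ≤ ρ ∧ ρ < μ ∧ ∀ n : ℕ,
      (((Y.K n).filter (fun w => M0 * (Y.S w).card ≤ n ∧ M0 * (Y.B w).card ≤ n)).card : ℝ) ≤
        C0 * ρ ^ n) →
    Pat Y μ

/-- **CC** (80 lines): the words are the step sequences. `u ↦ (fun i => if i < n then
vec (u.getD (n - 1 - i) .xp) else 0)` is a bijection `SS n → SawSet Om4 n`;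
`P ξ i = pos (u.drop (n - i))`. -/
def S_CC : Prop := ∀ n : ℕ, (SS n).card = Pool.Agent.H725R2.SB.cc Om4 n

/-- **MU** (200 lines, may use S_CC): the connective constant of `ℤ⁴` is at least `5.4`.
Proof: call a word transverse if it has no letters `.xp, .xm`; let `t_k` be the number of
transverse self-avoiding words of length `k`: `t_0, …, t_5 = 1, 6, 30, 150, 726, 3534` (kernel
computation with lists over the six letters; by symmetry one may fix the first letter; lower
bounds suffice). Let `G 0 = {[]}` and `G N` (`N ≥ 1`) the set of the words `t ++ .xp :: u` with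
`t` transverse self-avoiding of length `k ≤ 5`, `k + 1 ≤ N`, `u ∈ G (N - k - 1)`. The map
`(k, t, u) ↦ t ++ .xp :: u` is injective (`List.append_cons_inj_of_notMem`), and the words are
self-avoiding (`path_append`; the first coordinate of the vertices of `path u` is at most the one
of `pos u`, the vertices of `t` have first coordinate one larger). So
`|G N| = ∑_(k ≤ 5, k < N) t_k |G (N-k-1)|`, hence `|G N| ≥ x^(N-6)` (i.e. `x^6 |G N| ≥ x^N`) for
`x = 27/5` because `∑_(k ≤ 5) t_k x^(-k-1) = 1.058.. ≥ 1`. Finally `cc Om4 N ≥ x^(N-6)` for all `N`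
and submultiplicativity (`cc_add`) give `log (cc n) / n ≥ log x` for every `n ≥ 1`, so
`mu ≥ x`. -/
def S_MU : Prop := (27 / 5 : ℝ) ≤ Pool.Agent.H725R2.SB.mu Om4

end

end Pool.Agent.P8H98.DF
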