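import Pool.Agent.P8H98.DF.Stm

/-!
# Self-avoiding walks on `ℤ⁴`: the end point and the rate (statements, project DF)
-/

set_option autoImplicit false

namespace Pool.Agent.P8H98.DF

open Finset Filter Topology
open Pool.Agent.N929.EG

noncomputable section

/-- `ω` is an `n`-step self-avoiding walk on `ℤ⁴` started at the origin. -/
def IsSAW (n : ℕ) (ω : Fin (n + 1) → Fin 4 → ℤ) : Prop :=
  ω 0 = 0 ∧ (∀ i : Fin n, ∑ j, |ω i.succ j - ω i.castSucc j| = 1) ∧ Function.Injective ω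

/-- the mean of `F (ω(n))` over the `n`-step self-avoiding walks -/
def mean (n : ℕ) (F : (Fin 4 → ℤ) → ℝ) : ℝ :=
  (∑ᶠ ω ∈ {ω | IsSAW n ω}, F (ω (Fin.last n))) / ({ω | IsSAW n ω}.ncard : ℝ)

/-- the Euclidean norm -/
def norm2 (x : Fin 4 → ℤ) : ℝ := Real.sqrt (∑ j, (x j : ℝ) ^ 2)

/-- points -/
def E (p : Z4) : Fin 4 → ℤ := ![p.1, p.2.1, p.2.2.1, p.2.2.2]

/-- **END** (150 lines, adapt `TH966/KO/WEnd.lean`: `bij`, `ncard_eq`, `mean_eq`, `norm2_...`,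
`pos_ne`, and `TH966/KO/Bridge.lean`): with `wk n u i = E (pos (u.drop (n - i)))`, which is a
bijection from `SS n` to the set of the self-avoiding walks. -/
def S_END : Prop :=
  (∀ (n : ℕ) (G : (Fin 4 → ℤ) → ℝ),
    mean n G = (∑ u ∈ SS n, G (E (pos u))) / ((SS n).card : ℝ)) ∧
  (∀ u : List Dir, SAW u → 1 ≤ u.length → 1 ≤ norm2 (E (pos u))) ∧
  (∀ u : List Dir, norm2 (E (pos u)) ≤ u.length) ∧ norm2 (E 0) = 0 ∧
  (∀ n : ℕ, {ω : Fin (n + 1) → Fin 4 → ℤ | IsSAW n ω}.ncard = (SS n).card)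

/-- **PHI** (80 lines, elementary; `Phi` is in `N929/EG/Stm.lean`, model `phi_log`, `sqrt_phi` in
`N929/EG/Two.lean`): the rate function `√n log n`. -/
def S_PHI : Prop := ∀ K₁ : ℝ, 1 ≤ K₁ → Phi (fun n => K₁ * (Real.sqrt n * Real.log n)) ∧
  ∀ n : ℕ, 2 ≤ n → Real.sqrt (K₁ * (Real.sqrt n * Real.log n) / n) =
    Real.sqrt K₁ * ((n : ℝ) ^ (-(1 / 4) : ℝ) * Real.sqrt (Real.log n))

/-- **UPB** (100 lines; adapt `HG_le` in `TH546/GD/Far.lean`, from `log_cc_le`, `log_cc_ge` in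
`TH546/GD/Piece.lean` and `one_le_mu`, `mu_pow_le_cc`): Hammersley and Welsh for `ℤ⁴`; for the
level functional take `F = AddMonoidHom.fst`, `r = AddEquiv.neg`, `e = vec .xp`. -/
def S_UPB : Prop :=
  (∃ K₁ : ℝ, 1 ≤ K₁ ∧ ∀ n m : ℕ, 2 ≤ n → m ≤ 2 * n →
    (Pool.Agent.H725R2.SB.cc Om4 m : ℝ) ≤
      Pool.Agent.H725R2.SB.mu Om4 ^ m * Real.exp (K₁ * (Real.sqrt n * Real.log n))) ∧
  (∀ n : ℕ, Pool.Agent.H725R2.SB.mu Om4 ^ n ≤ (Pool.Agent.H725R2.SB.cc Om4 n : ℝ)) ∧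
  1 ≤ Pool.Agent.H725R2.SB.mu Om4 ∧
  ∀ τ : ℝ, 0 < τ → ∃ C : ℝ, ∀ n : ℕ,
    (Pool.Agent.H725R2.SB.cc Om4 n : ℝ) ≤ C * ((1 + τ) * Pool.Agent.H725R2.SB.mu Om4) ^ n

end

end Pool.Agent.P8H98.DF
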