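import Pool.Agent.P8H98.DF.Stm2
import Pool.Agent.N929.EG.Main

/-!
# Self-avoiding walks on `ℤ⁴`: the system of moves (project DF)
-/

set_option autoImplicit false
set_option linter.unusedVariables false

namespace Pool.Agent.P8H98.DF

open Finset Filter Topology
open scoped Classical
open Pool.Agent.N929.EG

noncomputable section

/-- the connective constant -/
def μ4 : ℝ := Pool.Agent.H725R2.SB.mu Om4

/-- the last vertex -/
def e4 (w : List Z4) : Z4 := w.getLast?.getD 0

theorem path_head' (u : List Dir) : ∃ l, path u = pos u :: l := by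
  cases u with
  | nil => exact ⟨[], rfl⟩
  | cons d u => exact ⟨path u, rfl⟩

theorem path_inj : ∀ u v : List Dir, path u = path v → u = v
  | [], [], _ => rfl
  | [], d :: v, h => by
    have := congrArg List.length h
    rw [path_length, path_length] at this
    simp at this
  | d :: u, [], h => by
    have := congrArg List.length h
    rw [path_length, path_length] at this
    simp at this
  | d :: u, e :: v, h => by
    rw [path, path, List.cons.injEq] at h
    have h1 := path_inj u v h.2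
    subst h1
    rw [vec_inj (add_left_cancel h.1)]

theorem e4_path (u : List Dir) : e4 (path u).reverse = pos u := by
  obtain ⟨l, hl⟩ := path_head' u
  unfold e4
  rw [hl, List.getLast?_reverse]
  rfl

/-- the last vertex does not change (copied from `N929/EG/Two.lean`) -/
theorem last_rep {Ver : Type} {o : Ver} {A : Ver → Ver → Prop} {U U' w : List Ver}
    (h : Pair A U U') (hw : Walk o A w) (hf : Free U U' w) :
    (rep w U U').getLast? = w.getLast? := by
  obtain ⟨L, R, h1, h2, -, -, -⟩ := rep_all h hw hf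
  obtain ⟨⟨p, r, X, X', e1, e2, -, -⟩, -⟩ := h
  have e : ∀ Q : List Ver, (L ++ (p :: (Q ++ [r])) ++ R).getLast? = (r :: R).getLast? := by
    intro Q
    have h3 : L ++ (p :: (Q ++ [r])) ++ R = (L ++ (p :: Q)) ++ r :: R := by simp
    rw [h3, List.getLast?_append_cons]
  rw [h2, h1, e1, e2, e, e]

/-- The system of moves on `ℤ⁴` -/
structure Sys4 (Y : TS (List Z4) (List Z4 × List Z4)) : Prop where
  s : Y.s = 2
  K : ∀ n w, w ∈ Y.K n ↔ ∃ u ∈ SS n, w = (path u).reverse
  e4 : ∀ n, ∀ w ∈ Y.K n, ∀ q ∈ Y.S w, e4 (Y.ins w q) = e4 w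
  gr : ∃ K₁ : ℝ, 1 ≤ K₁ ∧ Gr Y μ4 (fun n => K₁ * (Real.sqrt n * Real.log n))

theorem sum_Y {Y : TS (List Z4) (List Z4 × List Z4)}
    (hK : ∀ n w, w ∈ Y.K n ↔ ∃ u ∈ SS n, w = (path u).reverse) (n : ℕ) (F : List Z4 → ℝ) :
    ∑ w ∈ Y.K n, F w = ∑ u ∈ SS n, F (path u).reverse := by
  symm
  refine sum_bij (fun u _ => (path u).reverse) (fun u hu => (hK n _).2 ⟨u, hu, rfl⟩)
    (fun u _ v _ h => path_inj u v (List.reverse_injective h)) (fun w hw => ?_)
    (fun _ _ => rfl)
  obtain ⟨u, hu, rfl⟩ := (hK n w).1 hw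
  exact ⟨u, hu, rfl⟩

theorem card_Y {Y : TS (List Z4) (List Z4 × List Z4)}
    (hK : ∀ n w, w ∈ Y.K n ↔ ∃ u ∈ SS n, w = (path u).reverse) (n : ℕ) :
    ((Y.K n).card : ℝ) = (SS n).card := by
  have h := sum_Y hK n (fun _ => 1)
  rw [sum_const, sum_const, nsmul_eq_mul, nsmul_eq_mul, mul_one, mul_one] at h
  exact h

/-- a bound for walks with few free plaquettes and few bumps -/
def Poor4 : Prop := ∃ C : ℝ, ∀ n : ℕ,
  (((SS n).filter (fun w => 1000 * fr w ≤ n ∧ 1000 * bu w ≤ n)).card : ℝ) ≤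
    C * (53 / 10 : ℝ) ^ n

theorem sys4 (hgeo : S_GEO) (hwk : S_WK) (hcnt : S_CNT) (hpat : S_PAT) (hcc : S_CC) (hmu : S_MU)
    (hphi : S_PHI) (hupb : S_UPB) (hpoor : Poor4) :
    ∃ Y : TS (List Z4) (List Z4 × List Z4), Sys4 Y := by
  obtain ⟨X, Z, hX, hs, hT⟩ := hgeo
  obtain ⟨Y, h1, h2, h3, h4, h5, h6⟩ := s_win Z4 X A4 Z
  have hK : ∀ n w, w ∈ Y.K n ↔ ∃ u ∈ SS n, w = (path u).reverse := by
    intro n w
    rw [h3, hX]
    exact hwk n w
  obtain ⟨⟨K₁, hK₁, hup⟩, hlow, hone, hgrow⟩ := hupb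
  have hcard : ∀ n, ((Y.K n).card : ℝ) = Pool.Agent.H725R2.SB.cc Om4 n := by
    intro n
    rw [card_Y hK, hcc n]
  refine ⟨Y, h1.trans hs, hK, ?_, K₁, hK₁, hone, (hphi K₁ hK₁).1, ?_, ?_⟩
  · intro n w hw q hq
    rw [h3, hX] at hw
    rw [h4] at hq
    have := last_rep (U := q.1) (U' := q.2) (Z.pair _ _ hq.1) hw.2 hq.2
    rw [h6]
    unfold e4
    rw [this]
  · intro n m hn hm
    rw [hcard]
    exact hup n m hn hm
  · refine hpat _ _ Y μ4 hone (fun τ hτ => ?_) ?_
    · obtain ⟨C, hC⟩ := hgrow τ hτ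
      exact ⟨C, fun n => by rw [hcard]; exact hC n⟩
    · obtain ⟨C, hC⟩ := hpoor
      refine ⟨1000, 53 / 10, C, by norm_num, by norm_num, ?_, fun n => ?_⟩
      · have : (27 / 5 : ℝ) ≤ μ4 := hmu
        linarith
      · refine le_trans ?_ (hC n)
        have e2 : (Y.K n).filter (fun w => 1000 * (Y.S w).card ≤ n ∧ 1000 * (Y.B w).card ≤ n) ⊆
            ((SS n).filter (fun w => 1000 * fr w ≤ n ∧ 1000 * bu w ≤ n)).image
              (fun u => (path u).reverse) := by
          intro w hw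
          rw [mem_filter, hK] at hw
          obtain ⟨⟨u, hu, rfl⟩, hw1, hw2⟩ := hw
          rw [mem_image]
          refine ⟨u, ?_, rfl⟩
          rw [mem_filter]
          refine ⟨hu, ?_, ?_⟩
          · have e4 := (hcnt n u hu (Y.S (path u).reverse)).1 (fun q => by rw [h4, hT])
            have := Nat.mul_le_mul_left 1000 e4
            omega
          · have e4 := (hcnt n u hu (Y.B (path u).reverse)).2 (fun q => by rw [h5, hT])
            have := Nat.mul_le_mul_left 1000 e4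
            omega
        exact_mod_cast (card_le_card e2).trans card_image_le

theorem low4 (hcc : S_CC) (hupb : S_UPB) {Y : TS (List Z4) (List Z4 × List Z4)} (H : Sys4 Y)
    (φ : ℕ → ℝ) : ∃ K' : ℝ, 0 ≤ K' ∧ ∀ n : ℕ, 2 ≤ n →
      μ4 ^ n ≤ Real.exp (K' * φ n) * ((Y.K n).card : ℝ) := by
  refine ⟨0, le_rfl, fun n _ => ?_⟩
  rw [zero_mul, Real.exp_zero, one_mul, card_Y H.K, hcc n]
  exact hupb.2.1 n

end

end Pool.Agent.P8H98.DF
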