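import Pool.Agent.P8H98.DF.All

/-!
# Self-avoiding walks on `ℤ⁴`: the system of moves, with the sets of moves (project DF)
-/

set_option autoImplicit false
set_option linter.unusedVariables false

namespace Pool.Agent.P8H98.DF

open Finset Filter Topology
open scoped Classical
open Pool.Agent.N929.EG

noncomputable section

theorem sys4S (hgeo : S_GEO) (hwk : S_WK) (hcnt : S_CNT) (hpat : S_PAT) (hcc : S_CC) (hmu : S_MU)
    (hphi : S_PHI) (hupb : S_UPB) (hpoor : Poor4) :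
    ∃ Y : TS (List Z4) (List Z4 × List Z4), Sys4 Y ∧
      ∀ w q, q ∈ Y.S w ↔ T4 q.1 q.2 ∧ Free q.1 q.2 w := by
  obtain ⟨X, Z, hX, hs, hT⟩ := hgeo
  obtain ⟨Y, h1, h2, h3, h4, h5, h6⟩ := s_win Z4 X A4 Z
  have hK : ∀ n w, w ∈ Y.K n ↔ ∃ u ∈ SS n, w = (path u).reverse := by
    intro n w
    rw [h3, hX]
    exact hwk n w
  obtain ⟨⟨K₁, hK₁, hup⟩, hlow, hone, hgrow⟩ := hupb
  have hcard : ∀ n, ((Y.K n).card : ℝ) = Pool.Agent.H725R2.SB.cc Om4 n := by
    intro n
    rw [card_Y hK, hcc n]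
  refine ⟨Y, ⟨h1.trans hs, hK, ?_, K₁, hK₁, hone, (hphi K₁ hK₁).1, ?_, ?_⟩, fun w q => by rw [h4, hT]⟩
  · intro n w hw q hq
    rw [h3, hX] at hw
    rw [h4] at hq
    have := last_rep (U := q.1) (U' := q.2) (Z.pair _ _ hq.1) hw.2 hq.2
    rw [h6]
    unfold e4
    rw [this]
  · intro n m hn hm
    rw [hcard]
    exact hup n m hn hm
  · refine hpat _ _ Y μ4 hone (fun τ hτ => ?_) ?_
    · obtain ⟨C, hC⟩ := hgrow τ hτ
      exact ⟨C, fun n => by rw [hcard]; exact hC n⟩
    · obtain ⟨C, hC⟩ := hpoor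
      refine ⟨1000, 53 / 10, C, by norm_num, by norm_num, ?_, fun n => ?_⟩
      · have : (27 / 5 : ℝ) ≤ μ4 := hmu
        linarith
      · refine le_trans ?_ (hC n)
        have e2 : (Y.K n).filter (fun w => 1000 * (Y.S w).card ≤ n ∧ 1000 * (Y.B w).card ≤ n) ⊆
            ((SS n).filter (fun w => 1000 * fr w ≤ n ∧ 1000 * bu w ≤ n)).image
              (fun u => (path u).reverse) := by
          intro w hw
          rw [mem_filter, hK] at hw
          obtain ⟨⟨u, hu, rfl⟩, hw1, hw2⟩ := hw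
          rw [mem_image]
          refine ⟨u, ?_, rfl⟩
          rw [mem_filter]
          refine ⟨hu, ?_, ?_⟩
          · have e4 := (hcnt n u hu (Y.S (path u).reverse)).1 (fun q => by rw [h4, hT])
            have := Nat.mul_le_mul_left 1000 e4
            omega
          · have e4 := (hcnt n u hu (Y.B (path u).reverse)).2 (fun q => by rw [h5, hT])
            have := Nat.mul_le_mul_left 1000 e4
            omega
        exact_mod_cast (card_le_card e2).trans card_image_le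


theorem sysS : ∃ Y : TS (List Z4) (List Z4 × List Z4), Sys4 Y ∧
    ∀ w q, q ∈ Y.S w ↔ T4 q.1 q.2 ∧ Free q.1 q.2 w :=
  sys4S Pool.Agent.P8H86.DF.geo Pool.Agent.P8H66.DF.wk Pool.Agent.P8H66.DF.cnt
    Pool.Agent.P8H63.DF.patT Pool.Agent.P8H4.DF.cc_thm Pool.Agent.P8H4.DF.mu_thm
    Pool.Agent.P8H63.DF.phi_phi Pool.Agent.P8H63.DF.upb poor4

end

end Pool.Agent.P8H98.DF
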